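import Pool.Agent.Work.MP_d87e04_lc.CF.Par

/-!
# Module App (M): squares, splittings and triangles inside a context

Casework on positions `[]` and `i :: p` (`mem_lv_cons`, `mem_sup_cons`, `nil_mem_lv_app`,
`nil_mem_sup_app`, `PT.anc`, `PT.anc_ofTm`, `PT.sup_ofTm`, `PT.src_ofTm`, `PT.tgt_ofTm`,
`Function.update_self`, `Function.update_of_ne`).
-/

set_option autoImplicit false

namespace Pool.Agent.Work.MP_d87e04_lc.CF

universe u

variable {F : Type u} {ar : F → ℕ}

private theorem anc_cons' {f : F} {A : Fin (ar f) → PT F ar} {i : ℕ} {p : List ℕ}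
    (h : i < ar f) : (PT.app f A).anc (i :: p) = i :: (A ⟨i, h⟩).anc p := by
  simp only [PT.anc, dif_pos h]

private theorem anc_nil' {f : F} {A : Fin (ar f) → PT F ar} : (PT.app f A).anc [] = [] := by
  simp only [PT.anc]

theorem sq_app {f : F} {A B C D : Fin (ar f) → PT F ar}
    (h : ∀ i, (cal F ar).Sq (A i) (B i) (C i) (D i)) :
    (cal F ar).Sq (PT.app f A) (PT.app f B) (PT.app f C) (PT.app f D) := by
  refine ⟨?_, ?_, ?_, ?_, ?_, ?_, ?_, ?_⟩
  · change Tm.app f (fun i => (A i).src) = Tm.app f (fun i => (B i).src)
    congr 1
    funext i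
    exact (h i).src_eq
  · change Tm.app f (fun i => (C i).src) = Tm.app f (fun i => (A i).tgt)
    congr 1
    funext i
    exact (h i).srcC
  · change Tm.app f (fun i => (D i).src) = Tm.app f (fun i => (B i).tgt)
    congr 1
    funext i
    exact (h i).srcD
  · change Tm.app f (fun i => (C i).tgt) = Tm.app f (fun i => (D i).tgt)
    congr 1
    funext i
    exact (h i).tgt_eq
  · change ∀ e ∈ lv (Tm.app f fun i => (C i).tgt),
      (PT.app f A).anc ((PT.app f C).anc e) = (PT.app f B).anc ((PT.app f D).anc e)
    intro e he
    cases e with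
    | nil => simp only [anc_nil']
    | cons i e =>
      obtain ⟨hi, he⟩ := mem_lv_cons.1 he
      rw [anc_cons' hi, anc_cons' hi, anc_cons' hi, anc_cons' hi]
      exact congrArg (List.cons i) ((h ⟨i, hi⟩).comm e he)
  · change ∀ e ∈ lv (Tm.app f fun i => (C i).tgt), ∀ e' ∈ lv (Tm.app f fun i => (C i).tgt),
      (PT.app f C).anc e = (PT.app f C).anc e' → (PT.app f D).anc e = (PT.app f D).anc e' →
      e = e'
    intro e he e' he' h1 h2
    cases e with
    | nil =>
      cases e' with
      | nil => rfl
      | cons j e' =>
        obtain ⟨hj, _⟩ := mem_lv_cons.1 he'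
        have := nil_mem_lv_app.1 he
        omega
    | cons i e =>
      obtain ⟨hi, he⟩ := mem_lv_cons.1 he
      cases e' with
      | nil =>
        have := nil_mem_lv_app.1 he'
        omega
      | cons j e' =>
        obtain ⟨hj, he'⟩ := mem_lv_cons.1 he'
        rw [anc_cons' hi, anc_cons' hj] at h1 h2
        injection h1 with hij h1
        subst hij
        injection h2 with _ h2
        rw [(h ⟨i, hi⟩).inj e he e' he' h1 h2]
  · change ∀ p ∈ (PT.app f C).sup, (PT.app f A).anc p ∈ (PT.app f B).sup
    intro p hp
    cases p with
    | nil => exact absurd hp nil_mem_sup_app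
    | cons i p =>
      obtain ⟨hi, hp⟩ := mem_sup_cons.1 hp
      rw [anc_cons' hi]
      exact mem_sup_cons.2 ⟨hi, (h ⟨i, hi⟩).supC p hp⟩
  · change ∀ p ∈ (PT.app f D).sup, (PT.app f B).anc p ∈ (PT.app f A).sup
    intro p hp
    cases p with
    | nil => exact absurd hp nil_mem_sup_app
    | cons i p =>
      obtain ⟨hi, hp⟩ := mem_sup_cons.1 hp
      rw [anc_cons' hi]
      exact mem_sup_cons.2 ⟨hi, (h ⟨i, hi⟩).supD p hp⟩

theorem split_app {f : F} {A : Fin (ar f) → PT F ar} {i : Fin (ar f)} {α A' : PT F ar}
    (h : (cal F ar).Split (A i) α A') :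
    (cal F ar).Split (PT.app f A)
      (PT.app f (Function.update (fun j => PT.ofTm (A j).src) i α))
      (PT.app f (Function.update A i A')) := by
  refine ⟨?_, ?_, ?_, ?_, ?_, ?_⟩
  · change Tm.app f (fun j => (Function.update (fun j => PT.ofTm (A j).src) i α j).src) =
      Tm.app f (fun j => (A j).src)
    congr 1
    funext j
    by_cases hj : j = i
    · subst hj
      rw [Function.update_self]
      exact h.srcα
    · rw [Function.update_of_ne hj]
      exact PT.src_ofTm _
  · change Tm.app f (fun j => (Function.update A i A' j).src) =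
      Tm.app f (fun j => (Function.update (fun j => PT.ofTm (A j).src) i α j).tgt)
    congr 1
    funext j
    by_cases hj : j = i
    · subst hj
      rw [Function.update_self, Function.update_self]
      exact h.mid
    · rw [Function.update_of_ne hj, Function.update_of_ne hj]
      exact (PT.tgt_ofTm _).symm
  · change Tm.app f (fun j => (Function.update A i A' j).tgt) = Tm.app f (fun j => (A j).tgt)
    congr 1
    funext j
    by_cases hj : j = i
    · subst hj
      rw [Function.update_self]
      exact h.tgtA'
    · rw [Function.update_of_ne hj]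
  · change ∀ e ∈ lv (Tm.app f fun j => (A j).tgt), (PT.app f A).anc e =
      (PT.app f (Function.update (fun j => PT.ofTm (A j).src) i α)).anc
        ((PT.app f (Function.update A i A')).anc e)
    intro e he
    cases e with
    | nil => simp only [anc_nil']
    | cons j e =>
      obtain ⟨hj, he⟩ := mem_lv_cons.1 he
      rw [anc_cons' hj, anc_cons' hj, anc_cons' hj]
      congr 1
      by_cases hji : (⟨j, hj⟩ : Fin (ar f)) = i
      · subst hji
        rw [Function.update_self, Function.update_self]
        exact h.comm e he
      · rw [Function.update_of_ne hji, Function.update_of_ne hji]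
        exact (PT.anc_ofTm _ _).symm
  · change (PT.app f (Function.update (fun j => PT.ofTm (A j).src) i α)).sup ⊆ (PT.app f A).sup
    intro p hp
    cases p with
    | nil => exact absurd hp nil_mem_sup_app
    | cons j p =>
      obtain ⟨hj, hp⟩ := mem_sup_cons.1 hp
      by_cases hji : (⟨j, hj⟩ : Fin (ar f)) = i
      · subst hji
        rw [Function.update_self] at hp
        exact mem_sup_cons.2 ⟨hj, h.supα hp⟩
      · rw [Function.update_of_ne hji, PT.sup_ofTm] at hp
        simp at hp
  · change ∀ p ∈ (PT.app f (Function.update A i A')).sup,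
      (PT.app f (Function.update (fun j => PT.ofTm (A j).src) i α)).anc p ∈ (PT.app f A).sup ∧
      (PT.app f (Function.update (fun j => PT.ofTm (A j).src) i α)).anc p ∉
        (PT.app f (Function.update (fun j => PT.ofTm (A j).src) i α)).sup ∧
      ∀ p' ∈ lv (Tm.app f (fun j => (Function.update (fun j => PT.ofTm (A j).src) i α j).tgt)),
        (PT.app f (Function.update (fun j => PT.ofTm (A j).src) i α)).anc p' =
          (PT.app f (Function.update (fun j => PT.ofTm (A j).src) i α)).anc p → p' = p
    intro p hp
    cases p with
    | nil => exact absurd hp nil_mem_sup_app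
    | cons j p =>
      obtain ⟨hj, hp⟩ := mem_sup_cons.1 hp
      rw [anc_cons' hj]
      by_cases hji : (⟨j, hj⟩ : Fin (ar f)) = i
      · subst hji
        rw [Function.update_self] at hp
        obtain ⟨h1, h2, h3⟩ := h.supA' p hp
        refine ⟨?_, ?_, ?_⟩
        · rw [Function.update_self]
          exact mem_sup_cons.2 ⟨hj, h1⟩
        · intro hc
          obtain ⟨_, hc⟩ := mem_sup_cons.1 hc
          rw [Function.update_self] at hc
          exact h2 hc
        · intro p' hp' he
          cases p' with
          | nil =>
            have := nil_mem_lv_app.1 hp'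
            omega
          | cons k p' =>
            obtain ⟨hk, hp'⟩ := mem_lv_cons.1 hp'
            rw [anc_cons' hk] at he
            injection he with hkj he
            subst hkj
            rw [Function.update_self] at hp' he
            rw [h3 p' hp' he]
      · rw [Function.update_of_ne hji] at hp
        refine ⟨?_, ?_, ?_⟩
        · rw [Function.update_of_ne hji, PT.anc_ofTm]
          exact mem_sup_cons.2 ⟨hj, hp⟩
        · intro hc
          obtain ⟨_, hc⟩ := mem_sup_cons.1 hc
          rw [Function.update_of_ne hji, PT.sup_ofTm] at hc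
          simp at hc
        · intro p' hp' he
          cases p' with
          | nil =>
            have := nil_mem_lv_app.1 hp'
            omega
          | cons k p' =>
            obtain ⟨hk, hp'⟩ := mem_lv_cons.1 hp'
            rw [anc_cons' hk] at he
            injection he with hkj he
            subst hkj
            rw [Function.update_of_ne hji, PT.anc_ofTm, PT.anc_ofTm] at he
            rw [he]

theorem tri_app {f : F} (u : Fin (ar f) → Tm F ar) {i : Fin (ar f)} {X Y Z : PT F ar}
    (h : (cal F ar).Tri X Y Z) :
    (cal F ar).Tri (PT.app f (Function.update (fun j => PT.ofTm (u j)) i X))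
      (PT.app f (Function.update (fun j => PT.ofTm (u j)) i Y))
      (PT.app f (Function.update (fun j => PT.ofTm (u j)) i Z)) := by
  refine ⟨?_, ?_, ?_, ?_, ?_, ?_⟩
  · change Tm.app f (fun j => (Function.update (fun j => PT.ofTm (u j)) i X j).src) =
      Tm.app f (fun j => (Function.update (fun j => PT.ofTm (u j)) i Y j).src)
    congr 1
    funext j
    by_cases hj : j = i
    · subst hj
      rw [Function.update_self, Function.update_self]
      exact h.src_eq
    · rw [Function.update_of_ne hj, Function.update_of_ne hj]
  · change Tm.app f (fun j => (Function.update (fun j => PT.ofTm (u j)) i Z j).src) =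
      Tm.app f (fun j => (Function.update (fun j => PT.ofTm (u j)) i X j).tgt)
    congr 1
    funext j
    by_cases hj : j = i
    · subst hj
      rw [Function.update_self, Function.update_self]
      exact h.srcZ
    · rw [Function.update_of_ne hj, Function.update_of_ne hj, PT.src_ofTm, PT.tgt_ofTm]
  · change Tm.app f (fun j => (Function.update (fun j => PT.ofTm (u j)) i Z j).tgt) =
      Tm.app f (fun j => (Function.update (fun j => PT.ofTm (u j)) i Y j).tgt)
    congr 1
    funext j
    by_cases hj : j = i
    · subst hj
      rw [Function.update_self, Function.update_self]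
      exact h.tgtZ
    · rw [Function.update_of_ne hj, Function.update_of_ne hj]
  · change ∀ e ∈ lv (Tm.app f (fun j => (Function.update (fun j => PT.ofTm (u j)) i Y j).tgt)),
      (PT.app f (Function.update (fun j => PT.ofTm (u j)) i X)).anc
        ((PT.app f (Function.update (fun j => PT.ofTm (u j)) i Z)).anc e) =
      (PT.app f (Function.update (fun j => PT.ofTm (u j)) i Y)).anc e
    intro e he
    cases e with
    | nil => simp only [anc_nil']
    | cons j e =>
      obtain ⟨hj, he⟩ := mem_lv_cons.1 he
      rw [anc_cons' hj, anc_cons' hj, anc_cons' hj]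
      congr 1
      by_cases hji : (⟨j, hj⟩ : Fin (ar f)) = i
      · subst hji
        rw [Function.update_self] at he
        rw [Function.update_self, Function.update_self, Function.update_self]
        exact h.comm e he
      · rw [Function.update_of_ne hji, Function.update_of_ne hji, Function.update_of_ne hji,
          PT.anc_ofTm, PT.anc_ofTm]
  · change ∀ p ∈ (PT.app f (Function.update (fun j => PT.ofTm (u j)) i Z)).sup,
      (PT.app f (Function.update (fun j => PT.ofTm (u j)) i X)).anc p ∈
        (PT.app f (Function.update (fun j => PT.ofTm (u j)) i X)).sup ∪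
        (PT.app f (Function.update (fun j => PT.ofTm (u j)) i Y)).sup
    intro p hp
    cases p with
    | nil => exact absurd hp nil_mem_sup_app
    | cons j p =>
      obtain ⟨hj, hp⟩ := mem_sup_cons.1 hp
      rw [anc_cons' hj]
      by_cases hji : (⟨j, hj⟩ : Fin (ar f)) = i
      · subst hji
        rw [Function.update_self] at hp
        rcases Finset.mem_union.1 (h.supZ p hp) with h1 | h1
        · refine Finset.mem_union_left _ (mem_sup_cons.2 ⟨hj, ?_⟩)
          rw [Function.update_self]
          exact h1
        · refine Finset.mem_union_right _ (mem_sup_cons.2 ⟨hj, ?_⟩)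
          rw [Function.update_self, Function.update_self]
          exact h1
      · rw [Function.update_of_ne hji, PT.sup_ofTm] at hp
        simp at hp
  · obtain ⟨p, hp⟩ := h.meet
    obtain ⟨h1, h2⟩ := Finset.mem_inter.1 hp
    refine ⟨i.1 :: p, Finset.mem_inter.2 ⟨?_, ?_⟩⟩
    · refine mem_sup_cons.2 ⟨i.2, ?_⟩
      rw [Fin.eta, Function.update_self]
      exact h1
    · refine mem_sup_cons.2 ⟨i.2, ?_⟩
      rw [Fin.eta, Function.update_self]
      exact h2

theorem split_self {q : Rule F ar} {σ : ℕ → Tm F ar} :
    (cal F ar).Split (PT.rl q σ) (PT.rl q σ) (PT.ofTm (q.2.subst σ)) := by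
  refine ⟨rfl, ?_, ?_, ?_, ?_, ?_⟩
  · exact PT.src_ofTm _
  · exact PT.tgt_ofTm _
  · change ∀ e ∈ lv (PT.rl q σ).tgt, (PT.rl q σ).anc e =
      (PT.rl q σ).anc ((PT.ofTm (q.2.subst σ)).anc e)
    intro e _
    rw [PT.anc_ofTm]
  · exact Finset.Subset.refl _
  · intro p hp
    change p ∈ (PT.ofTm (q.2.subst σ)).sup at hp
    rw [PT.sup_ofTm] at hp
    simp at hp

end Pool.Agent.Work.MP_d87e04_lc.CF
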