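import Pool.Agent.Work.MP_d87e04_lc.CF.Psub

/-!
# Module Atp (M): steps at a position

Induction on `t` and cases on `p` (`atp`, `repl`, `subAt` have the same recursion). The ancestor
map of `atp t p A` is `fun e => p ++ A.anc e'` on `e = p ++ e'` and the identity elsewhere, in any
case it depends only on `p`, on `A.anc` and on the arities, which gives `anc_atp_congr`.
-/

set_option autoImplicit false

namespace Pool.Agent.Work.MP_d87e04_lc.CF

universe u

variable {F : Type u} {ar : F → ℕ}

private theorem subAt_nil' (t : Tm F ar) : t.subAt [] = some t := by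
  cases t <;> rfl

private theorem repl_nil' (t s : Tm F ar) : t.repl [] s = s := by
  cases t <;> rfl

private theorem atp_nil' (t : Tm F ar) (A : PT F ar) : PT.atp t [] A = A := by
  cases t <;> rfl

private theorem subAt_cons' {f : F} {a : Fin (ar f) → Tm F ar} {i : ℕ} (h : i < ar f)
    (p : List ℕ) : (Tm.app f a).subAt (i :: p) = (a ⟨i, h⟩).subAt p := by
  rw [Tm.subAt, dif_pos h]

private theorem subAt_lt' {f : F} {a : Fin (ar f) → Tm F ar} {i : ℕ} {p : List ℕ}
    {u : Tm F ar} (h : (Tm.app f a).subAt (i :: p) = some u) : i < ar f := by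
  by_contra hc
  rw [Tm.subAt, dif_neg hc] at h
  cases h

private theorem repl_cons' {f : F} {a : Fin (ar f) → Tm F ar} {i : ℕ} (h : i < ar f)
    (p : List ℕ) (s : Tm F ar) : (Tm.app f a).repl (i :: p) s =
      Tm.app f (Function.update a ⟨i, h⟩ ((a ⟨i, h⟩).repl p s)) := by
  rw [Tm.repl, dif_pos h]

private theorem atp_cons' {f : F} {a : Fin (ar f) → Tm F ar} {i : ℕ} (h : i < ar f)
    (p : List ℕ) (A : PT F ar) : PT.atp (Tm.app f a) (i :: p) A =
      PT.app f (Function.update (fun j => PT.ofTm (a j)) ⟨i, h⟩ (PT.atp (a ⟨i, h⟩) p A)) := by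
  rw [PT.atp, dif_pos h]

theorem PT.src_atp {t : Tm F ar} {p : List ℕ} {A : PT F ar} (h : t.subAt p = some A.src) :
    (PT.atp t p A).src = t := by
  induction p generalizing t with
  | nil =>
    rw [subAt_nil'] at h
    rw [atp_nil']
    exact (Option.some.inj h).symm
  | cons i p ih =>
    cases t with
    | var x => cases h
    | app f a =>
      have hi := subAt_lt' h
      rw [subAt_cons' hi] at h
      rw [atp_cons' hi, PT.src]
      congr 1
      funext j
      by_cases hj : j = ⟨i, hi⟩
      · subst hj
        rw [Function.update_self]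
        exact ih h
      · rw [Function.update_of_ne hj, PT.src_ofTm]

theorem PT.tgt_atp {t : Tm F ar} {p : List ℕ} {A : PT F ar} (h : t.subAt p = some A.src) :
    (PT.atp t p A).tgt = t.repl p A.tgt := by
  induction p generalizing t with
  | nil =>
    rw [atp_nil', repl_nil']
  | cons i p ih =>
    cases t with
    | var x => cases h
    | app f a =>
      have hi := subAt_lt' h
      rw [subAt_cons' hi] at h
      rw [atp_cons' hi, PT.tgt, repl_cons' hi]
      congr 1
      funext j
      by_cases hj : j = ⟨i, hi⟩
      · subst hj
        rw [Function.update_self, Function.update_self]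
        exact ih h
      · rw [Function.update_of_ne hj, Function.update_of_ne hj, PT.tgt_ofTm]

theorem PT.ok_atp {R : Set (Rule F ar)} {t : Tm F ar} {p : List ℕ} {A : PT F ar}
    (h : A.OK R) : (PT.atp t p A).OK R := by
  induction p generalizing t with
  | nil => rw [atp_nil']; exact h
  | cons i p ih =>
    cases t with
    | var x => exact trivial
    | app f a =>
      by_cases hi : i < ar f
      · rw [atp_cons' hi]
        intro j
        by_cases hj : j = ⟨i, hi⟩
        · subst hj
          rw [Function.update_self]
          exact ih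
        · rw [Function.update_of_ne hj]
          exact PT.ok_ofTm R _
      · rw [PT.atp, dif_neg hi]
        exact PT.ok_ofTm R _

theorem PT.mem_sup_atp {t : Tm F ar} {p : List ℕ} {A : PT F ar} (h : t.subAt p = some A.src)
    (e : List ℕ) : e ∈ (PT.atp t p A).sup ↔ ∃ e' ∈ A.sup, e = p ++ e' := by
  induction p generalizing t e with
  | nil =>
    rw [atp_nil']
    simp
  | cons i p ih =>
    cases t with
    | var x => cases h
    | app f a =>
      have hi := subAt_lt' h
      rw [subAt_cons' hi] at h
      rw [atp_cons' hi, PT.sup]
      simp only [Finset.mem_biUnion, Finset.mem_univ, true_and, Finset.mem_image]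
      constructor
      · rintro ⟨j, e1, he1, rfl⟩
        by_cases hj : j = ⟨i, hi⟩
        · subst hj
          rw [Function.update_self] at he1
          obtain ⟨e', he', rfl⟩ := (ih h e1).1 he1
          exact ⟨e', he', rfl⟩
        · rw [Function.update_of_ne hj, PT.sup_ofTm] at he1
          exact absurd he1 (Finset.notMem_empty _)
      · rintro ⟨e', he', rfl⟩
        refine ⟨⟨i, hi⟩, p ++ e', ?_, rfl⟩
        rw [Function.update_self]
        exact (ih h _).2 ⟨e', he', rfl⟩

theorem PT.anc_atp_congr {t : Tm F ar} {p : List ℕ} {A B : PT F ar} (hAB : A.anc = B.anc) :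
    (PT.atp t p A).anc = (PT.atp t p B).anc := by
  funext e
  induction p generalizing t e with
  | nil => rw [atp_nil', atp_nil', hAB]
  | cons i p ih =>
    cases t with
    | var x => rfl
    | app f a =>
      by_cases hi : i < ar f
      · rw [atp_cons' hi, atp_cons' hi]
        cases e with
        | nil => rw [PT.anc, PT.anc]
        | cons k e =>
          rw [PT.anc, PT.anc]
          by_cases hk : k < ar f
          · rw [dif_pos hk, dif_pos hk]
            by_cases hj : (⟨k, hk⟩ : Fin (ar f)) = ⟨i, hi⟩
            · rw [hj, Function.update_self, Function.update_self, ih]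
            · rw [Function.update_of_ne hj, Function.update_of_ne hj]
          · rw [dif_neg hk, dif_neg hk]
      · rw [PT.atp, dif_neg hi, PT.atp, dif_neg hi]

private theorem psub_ofTm' (δ : ℕ → Tm F ar) (t : Tm F ar) :
    (PT.ofTm t).psub δ = PT.ofTm (t.subst δ) := by
  induction t with
  | var x => rfl
  | app f a ih =>
    rw [PT.ofTm, PT.psub, Tm.subst_app, PT.ofTm]
    congr 1
    funext j
    exact ih j

theorem PT.psub_atp (δ : ℕ → Tm F ar) {t : Tm F ar} {p : List ℕ} {A : PT F ar}
    (h : t.subAt p = some A.src) :
    (PT.atp t p A).psub δ = PT.atp (t.subst δ) p (A.psub δ) := by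
  induction p generalizing t with
  | nil => rw [atp_nil', atp_nil']
  | cons i p ih =>
    cases t with
    | var x => cases h
    | app f a =>
      have hi := subAt_lt' h
      rw [subAt_cons' hi] at h
      rw [atp_cons' hi, PT.psub, Tm.subst_app, atp_cons' hi]
      congr 1
      funext j
      by_cases hj : j = ⟨i, hi⟩
      · subst hj
        rw [Function.update_self, Function.update_self]
        exact ih h
      · rw [Function.update_of_ne hj, Function.update_of_ne hj, psub_ofTm']

end Pool.Agent.Work.MP_d87e04_lc.CF
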