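import Pool.Agent.Work.MP_d87e04_lc.PDefs

/-!
# Leaves, ancestors and weights

Definitions for the proof of `MP_d87e04_lc.ConstantFree`.

* `Cal`: the abstract calculus. Every object `t` has a finite set `lv t` of leaves, every step `A`
  from `src A` to `tgt A` has an ancestor map `anc A` from the leaves of the target to the leaves
  of the source, and a set `sup A` of leaves of the source (the leaves below its redexes).
* `PT`: parallel steps as proof terms.
-/

set_option autoImplicit false

namespace Pool.Agent.Work.MP_d87e04_lc.CF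

universe u

/-! ## The abstract calculus -/

/-- The abstract calculus of leaves and ancestors. -/
structure Cal (T S P : Type*) where
  /-- leaves -/
  lv : T → Finset P
  /-- source -/
  src : S → T
  /-- target -/
  tgt : S → T
  /-- ancestor of a leaf of the target -/
  anc : S → P → P
  /-- the leaves of the source below the redexes -/
  sup : S → Finset P

namespace Cal

variable {T S P : Type*} [DecidableEq P] (K : Cal T S P)

/-- A square: `tgt A ← src A = src B → tgt B` is closed by `C` from `tgt A` and `D` from `tgt B`. -/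
structure Sq (A B C D : S) : Prop where
  src_eq : K.src A = K.src B
  srcC : K.src C = K.tgt A
  srcD : K.src D = K.tgt B
  tgt_eq : K.tgt C = K.tgt D
  comm : ∀ e ∈ K.lv (K.tgt C), K.anc A (K.anc C e) = K.anc B (K.anc D e)
  inj : ∀ e ∈ K.lv (K.tgt C), ∀ e' ∈ K.lv (K.tgt C),
    K.anc C e = K.anc C e' → K.anc D e = K.anc D e' → e = e'
  supC : ∀ p ∈ K.sup C, K.anc A p ∈ K.sup B
  supD : ∀ p ∈ K.sup D, K.anc B p ∈ K.sup A

/-- A triangle: `tgt X ← src X = src Y → tgt Y` is closed by `Z` from `tgt X` to `tgt Y`. -/
structure Tri (X Y Z : S) : Prop where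
  src_eq : K.src X = K.src Y
  srcZ : K.src Z = K.tgt X
  tgtZ : K.tgt Z = K.tgt Y
  comm : ∀ e ∈ K.lv (K.tgt Y), K.anc X (K.anc Z e) = K.anc Y e
  supZ : ∀ p ∈ K.sup Z, K.anc X p ∈ K.sup X ∪ K.sup Y
  meet : (K.sup X ∩ K.sup Y).Nonempty

/-- `A` is split into `α` followed by the parallel rest `A'`. -/
structure Split (A α A' : S) : Prop where
  srcα : K.src α = K.src A
  mid : K.src A' = K.tgt α
  tgtA' : K.tgt A' = K.tgt A
  comm : ∀ e ∈ K.lv (K.tgt A), K.anc A e = K.anc α (K.anc A' e)
  supα : K.sup α ⊆ K.sup A
  supA' : ∀ p ∈ K.sup A', K.anc α p ∈ K.sup A ∧ K.anc α p ∉ K.sup α ∧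
    ∀ p' ∈ K.lv (K.tgt α), K.anc α p' = K.anc α p → p' = p

/-- The general properties of a step. -/
structure Nice (A : S) : Prop where
  anc_mem : ∀ e ∈ K.lv (K.tgt A), K.anc A e ∈ K.lv (K.src A)
  sup_sub : K.sup A ⊆ K.lv (K.src A)
  desc : ∀ p ∈ K.lv (K.src A), p ∉ K.sup A → ∃ e ∈ K.lv (K.tgt A), K.anc A e = p

/-- The rewrite relation of a set of steps. -/
def Rel (G : Set S) (x y : T) : Prop := ∃ A ∈ G, K.src A = x ∧ K.tgt A = y

/-- Every peak of two steps is closed by a square, or can be split so that a triangle appears. -/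
def Peaks (G : Set S) : Prop := ∀ A ∈ G, ∀ B ∈ G, K.src A = K.src B →
  (∃ C ∈ G, ∃ D ∈ G, K.Sq A B C D) ∨
  ∃ α ∈ G, ∃ A' ∈ G, ∃ β ∈ G, ∃ B' ∈ G, ∃ Z ∈ G,
    K.Split A α A' ∧ K.Split B β B' ∧ (K.Tri α β Z ∨ K.Tri β α Z)

/-- Weights on the source from weights on the target: the sum over the descendants, and `1` for
an erased leaf. -/
def up (A : S) (w : P → ℕ) (p : P) : ℕ :=
  max 1 (∑ e ∈ (K.lv (K.tgt A)).filter (fun e => K.anc A e = p), w e)

/-- Weights on the target from weights on the source. -/
def dn (A : S) (w : P → ℕ) (p : P) : ℕ := w (K.anc A p)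

/-- The cost of a step with weights `l`, `r` on its source. -/
def cost (A : S) (l r : P → ℕ) : ℕ := ∑ p ∈ K.sup A, l p * r p

end Cal

/-! ## Terms -/

variable {F : Type u} {ar : F → ℕ}

/-- No constant (symbol without arguments) occurs in the term. -/
def NoConst : Tm F ar → Prop
  | .var _ => True
  | .app f a => 0 < ar f ∧ ∀ i, NoConst (a i)

/-- The positions of the leaves (variables and constants). -/
def lv : Tm F ar → Finset (List ℕ)
  | .var _ => {[]}
  | .app f a => if ar f = 0 then {[]} else
      Finset.univ.biUnion fun i : Fin (ar f) => (lv (a i)).image (List.cons i.1)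

/-- The term is a leaf. -/
def IsLeaf : Tm F ar → Prop
  | .var _ => True
  | .app f _ => ar f = 0

/-- The variable of `r` above or at position `p`, and the rest of `p`. -/
def along : Tm F ar → List ℕ → ℕ × List ℕ
  | .var x, p => (x, p)
  | .app _ _, [] => (0, [])
  | .app f a, i :: p => if h : i < ar f then along (a ⟨i, h⟩) p else (0, [])

open Classical in
/-- A position of the variable `x` in `t`. -/
noncomputable def vpos (t : Tm F ar) (x : ℕ) : List ℕ :=
  if h : ∃ k, t.subAt k = some (Tm.var x) then h.choose else []

/-- Parallel steps as proof terms: `rl q σ` is the root step with the rule `q` and the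
substitution `σ`. -/
inductive PT (F : Type u) (ar : F → ℕ) : Type u
  | var : ℕ → PT F ar
  | app : (f : F) → (Fin (ar f) → PT F ar) → PT F ar
  | rl : Rule F ar → (ℕ → Tm F ar) → PT F ar

namespace PT

/-- Source. -/
def src : PT F ar → Tm F ar
  | var x => Tm.var x
  | app f A => Tm.app f fun i => (A i).src
  | rl q σ => q.1.subst σ

/-- Target. -/
def tgt : PT F ar → Tm F ar
  | var x => Tm.var x
  | app f A => Tm.app f fun i => (A i).tgt
  | rl q σ => q.2.subst σ

/-- The identity step. -/
def ofTm : Tm F ar → PT F ar
  | .var x => var x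
  | .app f a => app f fun i => ofTm (a i)

/-- All rules used belong to `R`. -/
def OK (R : Set (Rule F ar)) : PT F ar → Prop
  | var _ => True
  | app _ A => ∀ i, OK R (A i)
  | rl q _ => q ∈ R

/-- The ancestor of a position of the target. -/
noncomputable def anc : PT F ar → List ℕ → List ℕ
  | var _, p => p
  | app _ _, [] => []
  | app f A, i :: p => if h : i < ar f then i :: anc (A ⟨i, h⟩) p else i :: p
  | rl q _, p => vpos q.1 (along q.2 p).1 ++ (along q.2 p).2

/-- The leaves of the source below the redexes. -/
def sup : PT F ar → Finset (List ℕ)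
  | var _ => ∅
  | app f A => Finset.univ.biUnion fun i : Fin (ar f) => (sup (A i)).image (List.cons i.1)
  | rl q σ => lv (q.1.subst σ)

/-- Substitution of terms in a step. -/
def psub (δ : ℕ → Tm F ar) : PT F ar → PT F ar
  | var x => ofTm (δ x)
  | app f A => app f fun i => psub δ (A i)
  | rl q σ => rl q fun x => (σ x).subst δ

/-- Substitution of steps in a term. -/
def lsub (τ : ℕ → PT F ar) : Tm F ar → PT F ar
  | .var x => τ x
  | .app f a => app f fun i => lsub τ (a i)

/-- The step which is `A` at position `p` of `t`, and the identity elsewhere. -/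
def atp : Tm F ar → List ℕ → PT F ar → PT F ar
  | _, [], A => A
  | .var x, _ :: _, _ => var x
  | .app f a, i :: p, A => if h : i < ar f then
      app f (Function.update (fun j => ofTm (a j)) ⟨i, h⟩ (atp (a ⟨i, h⟩) p A))
      else ofTm (.app f a)

end PT

/-- The calculus of parallel steps. -/
noncomputable def cal (F : Type u) (ar : F → ℕ) : Cal (Tm F ar) (PT F ar) (List ℕ) where
  lv := lv
  src := PT.src
  tgt := PT.tgt
  anc := PT.anc
  sup := PT.sup

/-- An injective code of positions. -/
def enc (p : List ℕ) : ℕ := Encodable.encode p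

/-- Every leaf is replaced by a variable which encodes its position (with the prefix `k`). -/
def lin : List ℕ → Tm F ar → Tm F ar
  | k, .var _ => .var (enc k)
  | k, .app f a => if ar f = 0 then .var (enc k) else .app f fun i => lin (k ++ [i.1]) (a i)

/-- Standing assumptions on the rules: no left side is a variable, the variables of the right
sides occur in the left sides, the left sides are linear, and no constant occurs in a rule. -/
structure Cf (R : Set (Rule F ar)) : Prop where
  trs : IsTRS R
  ll : LeftLinear R
  nc1 : ∀ q ∈ R, NoConst q.1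
  nc2 : ∀ q ∈ R, NoConst q.2

end Pool.Agent.Work.MP_d87e04_lc.CF
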