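import Pool.Agent.Work.MP_d87e04_lc.CF.Lv

/-!
# Module Lin (M): linearization

`lin m t` replaces the leaf of `t` at position `p` by the variable `enc (m ++ p)`.

* `lin_subst_pat`: induction on `P` (generalizing `m`): for `P = app f a`, `0 < ar f`, apply the
  induction hypothesis to `a i` with `m ++ [i]`, since `(m ++ [i]) ++ k = m ++ (i :: k)`.
* `unlin`: take `δ n = s` if `n = enc p` and `t.subAt p = some s` with `s` a leaf (`enc` is
  injective), and `δ n = var n` otherwise; prove `(lin m s).subst δ = s` for
  `t.subAt m = some s` by induction on `s`.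
* `lin_mem`, `lin_at`: induction on `t`.
-/

set_option autoImplicit false

namespace Pool.Agent.Work.MP_d87e04_lc.CF

universe u

variable {F : Type u} {ar : F → ℕ}

theorem enc_inj {p q : List ℕ} (h : enc p = enc q) : p = q := by
  exact Encodable.encode_injective h

theorem lv_lin (m : List ℕ) (t : Tm F ar) : lv (lin m t) = lv t := by
  induction t generalizing m with
  | var x => rfl
  | app f a ih =>
    by_cases h : ar f = 0
    · simp only [lin, lv, if_pos h]
    · simp only [lin, if_neg h]
      simp only [lv, if_neg h, ih]

theorem lin_mem {m : List ℕ} {t : Tm F ar} {p : List ℕ} (h : p ∈ lv t) :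
    (lin m t).subAt p = some (Tm.var (enc (m ++ p))) := by
  induction t generalizing m p with
  | var x =>
    rw [mem_lv_var] at h
    subst h
    rw [List.append_nil]
    rfl
  | app f a ih =>
    cases p with
    | nil =>
      rw [nil_mem_lv_app] at h
      simp only [lin, if_pos h, List.append_nil]
      rfl
    | cons i p =>
      obtain ⟨hi, hp⟩ := mem_lv_cons.1 h
      have h0 : ar f ≠ 0 := by omega
      simp only [lin, if_neg h0, Tm.subAt, dif_pos hi]
      rw [ih ⟨i, hi⟩ hp, List.append_assoc]
      rfl

theorem lin_at {m : List ℕ} {t s : Tm F ar} {p : List ℕ} (h : t.subAt p = some s) :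
    (lin m t).subAt p = some (lin (m ++ p) s) := by
  induction t generalizing m p with
  | var x =>
    cases p with
    | nil =>
      simp only [Tm.subAt, Option.some.injEq] at h
      subst h
      rw [List.append_nil]
      rfl
    | cons i p => simp [Tm.subAt] at h
  | app f a ih =>
    cases p with
    | nil =>
      simp only [Tm.subAt, Option.some.injEq] at h
      subst h
      rw [List.append_nil]
      simp only [Tm.subAt]
    | cons i p =>
      simp only [Tm.subAt] at h
      split at h
      · rename_i hi
        have h0 : ar f ≠ 0 := by omega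
        simp only [lin, if_neg h0, Tm.subAt, dif_pos hi]
        rw [ih ⟨i, hi⟩ h, List.append_assoc]
        rfl
      · simp at h

theorem lin_subst_pat {P : Tm F ar} (hP : NoConst P) {m : List ℕ} {σ σ' : ℕ → Tm F ar}
    (h : ∀ k x, P.subAt k = some (Tm.var x) → σ' x = lin (m ++ k) (σ x)) :
    lin m (P.subst σ) = P.subst σ' := by
  induction P generalizing m with
  | var x =>
    have := h [] x rfl
    rw [List.append_nil] at this
    exact this.symm
  | app f a ih =>
    have h0 : ar f ≠ 0 := by have := hP.1; omega
    simp only [Tm.subst, lin, if_neg h0]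
    congr 1
    funext i
    refine ih i (hP.2 i) fun k x hk => ?_
    have := h (i.1 :: k) x (by simp only [Tm.subAt, dif_pos i.2]; exact hk)
    rw [this, List.append_assoc]
    rfl

theorem unlin (t : Tm F ar) :
    ∃ δ : ℕ → Tm F ar, (∀ x, IsLeaf (δ x)) ∧ (lin [] t).subst δ = t := by
  classical
  have hex : ∀ n : ℕ, ∃ d : Tm F ar, IsLeaf d ∧
      ∀ p s, n = enc p → t.subAt p = some s → IsLeaf s → d = s := by
    intro n
    by_cases h : ∃ p s, n = enc p ∧ t.subAt p = some s ∧ IsLeaf s
    · obtain ⟨p, s, h1, h2, h3⟩ := h
      refine ⟨s, h3, fun p' s' h1' h2' _ => ?_⟩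
      have hp : p = p' := enc_inj (h1.symm.trans h1')
      subst hp
      rw [h2] at h2'
      exact Option.some.inj h2'
    · refine ⟨Tm.var n, trivial, fun p s h1 h2 h3 => absurd ⟨p, s, h1, h2, h3⟩ h⟩
  choose δ hδ1 hδ2 using hex
  refine ⟨δ, hδ1, ?_⟩
  have key : ∀ (s : Tm F ar) (m : List ℕ), t.subAt m = some s → (lin m s).subst δ = s := by
    intro s
    induction s with
    | var x =>
      intro m hm
      exact hδ2 (enc m) m _ rfl hm trivial
    | app f a ih =>
      intro m hm
      by_cases h0 : ar f = 0
      · simp only [lin, if_pos h0]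
        exact hδ2 (enc m) m _ rfl hm h0
      · simp only [lin, if_neg h0, Tm.subst]
        congr 1
        funext i
        refine ih i (m ++ [i.1]) ?_
        rw [subAt_append hm]
        simp only [Tm.subAt, dif_pos i.2]
  exact key t [] (by simp only [Tm.subAt])

end Pool.Agent.Work.MP_d87e04_lc.CF
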