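import Pool.Agent.Work.MP_d87e04_lc.CF.Defs

/-!
# Module Lv (S-M): positions of leaves and of variables

Basic facts on `lv`, `subAt`, `along`, `vpos`, `PT.sup`. All by structural induction on the term
(and cases on the position). `Tm.subst`, `Tm.occ`, `Tm.subAt`, `Tm.Linear` are in `Defs.lean`,
`Basic.lean` of the folder above.
-/

set_option autoImplicit false

namespace Pool.Agent.Work.MP_d87e04_lc.CF

universe u

variable {F : Type u} {ar : F → ℕ}

private theorem subAt_nil' (t : Tm F ar) : t.subAt [] = some t := by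
  cases t <;> rfl

private theorem subAt_cons' {f : F} {a : Fin (ar f) → Tm F ar} {i : ℕ} {p : List ℕ}
    {s : Tm F ar} : (Tm.app f a).subAt (i :: p) = some s ↔
      ∃ h : i < ar f, (a ⟨i, h⟩).subAt p = some s := by
  simp only [Tm.subAt]
  constructor
  · intro h
    split at h
    · rename_i hi
      exact ⟨hi, h⟩
    · exact absurd h (by simp)
  · rintro ⟨h, hs⟩
    rw [dif_pos h]
    exact hs

theorem mem_lv_var {x : ℕ} {p : List ℕ} : p ∈ lv (Tm.var x : Tm F ar) ↔ p = [] := by
  simp only [lv, Finset.mem_singleton]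

theorem mem_lv_cons {f : F} {a : Fin (ar f) → Tm F ar} {i : ℕ} {p : List ℕ} :
    (i :: p) ∈ lv (Tm.app f a) ↔ ∃ h : i < ar f, p ∈ lv (a ⟨i, h⟩) := by
  simp only [lv]
  split
  · rename_i h0
    constructor
    · intro h
      exact absurd h (by simp)
    · rintro ⟨h, _⟩
      omega
  · simp only [Finset.mem_biUnion, Finset.mem_univ, true_and, Finset.mem_image, List.cons.injEq]
    constructor
    · rintro ⟨j, q, hq, rfl, rfl⟩
      exact ⟨j.2, hq⟩
    · rintro ⟨h, hp⟩
      exact ⟨⟨i, h⟩, p, hp, rfl, rfl⟩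

theorem nil_mem_lv_app {f : F} {a : Fin (ar f) → Tm F ar} :
    [] ∈ lv (Tm.app f a) ↔ ar f = 0 := by
  simp only [lv]
  split
  · rename_i h0
    simp [h0]
  · rename_i h0
    simp [h0]

theorem lv_nonempty (t : Tm F ar) : (lv t).Nonempty := by
  induction t with
  | var x => exact ⟨[], mem_lv_var.2 rfl⟩
  | app f a ih =>
    rcases Nat.eq_zero_or_pos (ar f) with h | h
    · exact ⟨[], nil_mem_lv_app.2 h⟩
    · obtain ⟨q, hq⟩ := ih ⟨0, h⟩
      exact ⟨0 :: q, mem_lv_cons.2 ⟨h, hq⟩⟩

theorem mem_sup_cons {f : F} {A : Fin (ar f) → PT F ar} {i : ℕ} {p : List ℕ} :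
    (i :: p) ∈ (PT.app f A).sup ↔ ∃ h : i < ar f, p ∈ (A ⟨i, h⟩).sup := by
  simp only [PT.sup, Finset.mem_biUnion, Finset.mem_univ, true_and, Finset.mem_image,
    List.cons.injEq]
  constructor
  · rintro ⟨j, q, hq, rfl, rfl⟩
    exact ⟨j.2, hq⟩
  · rintro ⟨h, hp⟩
    exact ⟨⟨i, h⟩, p, hp, rfl, rfl⟩

theorem nil_mem_sup_app {f : F} {A : Fin (ar f) → PT F ar} : [] ∉ (PT.app f A).sup := by
  simp [PT.sup]

theorem mem_lv_iff {t : Tm F ar} {p : List ℕ} :
    p ∈ lv t ↔ ∃ s, t.subAt p = some s ∧ IsLeaf s := by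
  induction t generalizing p with
  | var x =>
    rw [mem_lv_var]
    cases p with
    | nil =>
      rw [subAt_nil']
      exact ⟨fun _ => ⟨_, rfl, trivial⟩, fun _ => rfl⟩
    | cons i p =>
      constructor
      · intro h
        exact absurd h (by simp)
      · rintro ⟨s, hs, _⟩
        exact absurd hs (by simp [Tm.subAt])
  | app f a ih =>
    cases p with
    | nil =>
      rw [nil_mem_lv_app, subAt_nil']
      constructor
      · intro h
        exact ⟨_, rfl, h⟩
      · rintro ⟨s, hs, h⟩
        cases hs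
        exact h
    | cons i p =>
      rw [mem_lv_cons]
      constructor
      · rintro ⟨h, hp⟩
        obtain ⟨s, hs, hl⟩ := (ih ⟨i, h⟩).1 hp
        exact ⟨s, subAt_cons'.2 ⟨h, hs⟩, hl⟩
      · rintro ⟨s, hs, hl⟩
        obtain ⟨h, hs⟩ := subAt_cons'.1 hs
        exact ⟨h, (ih ⟨i, h⟩).2 ⟨s, hs, hl⟩⟩

theorem subAt_append {t s : Tm F ar} {k q : List ℕ} (h : t.subAt k = some s) :
    t.subAt (k ++ q) = s.subAt q := by
  induction k generalizing t with
  | nil =>
    rw [subAt_nil'] at h
    cases h
    rfl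
  | cons i k ih =>
    cases t with
    | var x => exact absurd h (by simp [Tm.subAt])
    | app f a =>
      obtain ⟨hi, h⟩ := subAt_cons'.1 h
      rw [List.cons_append]
      simp only [Tm.subAt, dif_pos hi]
      exact ih h

theorem occ_of_subAt {t : Tm F ar} {k : List ℕ} {x : ℕ} (h : t.subAt k = some (Tm.var x)) :
    0 < t.occ x := by
  induction k generalizing t with
  | nil =>
    rw [subAt_nil'] at h
    cases h
    simp [Tm.occ]
  | cons i k ih =>
    cases t with
    | var y => exact absurd h (by simp [Tm.subAt])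
    | app f a =>
      obtain ⟨hi, h⟩ := subAt_cons'.1 h
      exact Tm.occ_arg (ih h)

private theorem exists_pos' {t : Tm F ar} {x : ℕ} (h : 0 < t.occ x) :
    ∃ k, t.subAt k = some (Tm.var x) := by
  induction t with
  | var y =>
    simp only [Tm.occ] at h
    split at h
    · rename_i hy
      subst hy
      exact ⟨[], subAt_nil' _⟩
    · exact absurd h (lt_irrefl 0)
  | app f a ih =>
    obtain ⟨i, hi⟩ := Tm.occ_app h
    obtain ⟨k, hk⟩ := ih i hi
    exact ⟨i.1 :: k, subAt_cons'.2 ⟨i.2, hk⟩⟩

/-- `vpos t x` is a position of `x` if `x` occurs in `t`. -/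
theorem vpos_spec {t : Tm F ar} {x : ℕ} (h : 0 < t.occ x) :
    t.subAt (vpos t x) = some (Tm.var x) := by
  have hex := exists_pos' h
  unfold vpos
  rw [dif_pos hex]
  exact hex.choose_spec

private theorem pos_unique' {t : Tm F ar} (ht : t.Linear) {k k' : List ℕ} {x : ℕ}
    (h : t.subAt k = some (Tm.var x)) (h' : t.subAt k' = some (Tm.var x)) : k = k' := by
  induction t generalizing k k' with
  | var y =>
    cases k with
    | nil =>
      cases k' with
      | nil => rfl
      | cons i k' => exact absurd h' (by simp [Tm.subAt])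
    | cons i k => exact absurd h (by simp [Tm.subAt])
  | app f a ih =>
    cases k with
    | nil => exact absurd h (by simp [Tm.subAt])
    | cons i k =>
      cases k' with
      | nil => exact absurd h' (by simp [Tm.subAt])
      | cons j k' =>
        obtain ⟨hi, h⟩ := subAt_cons'.1 h
        obtain ⟨hj, h'⟩ := subAt_cons'.1 h'
        have hij : (⟨i, hi⟩ : Fin (ar f)) = ⟨j, hj⟩ :=
          ht.disj (occ_of_subAt h) (occ_of_subAt h')
        have hij' : i = j := congrArg Fin.val hij
        subst hij'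
        rw [ih ⟨i, hi⟩ (ht.arg _) h h']

/-- In a linear term the position of a variable is unique. -/
theorem vpos_eq {t : Tm F ar} (ht : t.Linear) {k : List ℕ} {x : ℕ}
    (h : t.subAt k = some (Tm.var x)) : vpos t x = k :=
  pos_unique' ht (vpos_spec (occ_of_subAt h)) h

theorem along_append {r : Tm F ar} {k : List ℕ} {x : ℕ} (h : r.subAt k = some (Tm.var x))
    (q : List ℕ) : along r (k ++ q) = (x, q) := by
  induction k generalizing r with
  | nil =>
    rw [subAt_nil'] at h
    cases h
    rfl
  | cons i k ih =>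
    cases r with
    | var y => exact absurd h (by simp [Tm.subAt])
    | app f a =>
      obtain ⟨hi, h⟩ := subAt_cons'.1 h
      rw [List.cons_append]
      simp only [along, dif_pos hi]
      exact ih h

theorem mem_lv_subst {r : Tm F ar} {k : List ℕ} {x : ℕ} (h : r.subAt k = some (Tm.var x))
    (σ : ℕ → Tm F ar) (q : List ℕ) : k ++ q ∈ lv (r.subst σ) ↔ q ∈ lv (σ x) := by
  induction k generalizing r with
  | nil =>
    rw [subAt_nil'] at h
    cases h
    rfl
  | cons i k ih =>
    cases r with
    | var y => exact absurd h (by simp [Tm.subAt])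
    | app f a =>
      obtain ⟨hi, h⟩ := subAt_cons'.1 h
      rw [List.cons_append, Tm.subst_app, mem_lv_cons]
      constructor
      · rintro ⟨_, h'⟩
        exact (ih h).1 h'
      · intro h'
        exact ⟨hi, (ih h).2 h'⟩

/-- Every leaf of `r σ` is in the value of a variable, if `r` has no constants. -/
theorem lv_subst_cases {r : Tm F ar} (hr : NoConst r) {σ : ℕ → Tm F ar} {p : List ℕ}
    (h : p ∈ lv (r.subst σ)) :
    ∃ k x q, r.subAt k = some (Tm.var x) ∧ q ∈ lv (σ x) ∧ p = k ++ q := by
  induction r generalizing p with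
  | var x => exact ⟨[], x, p, subAt_nil' _, h, rfl⟩
  | app f a ih =>
    simp only [NoConst] at hr
    rw [Tm.subst_app] at h
    cases p with
    | nil =>
      have := nil_mem_lv_app.1 h
      omega
    | cons i p =>
      obtain ⟨hi, hp⟩ := mem_lv_cons.1 h
      obtain ⟨k, x, q, h1, h2, h3⟩ := ih ⟨i, hi⟩ (hr.2 _) hp
      exact ⟨i :: k, x, q, subAt_cons'.2 ⟨hi, h1⟩, h2, by rw [h3, List.cons_append]⟩

end Pool.Agent.Work.MP_d87e04_lc.CF
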