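import Pool.Agent.Work.MP_d87e04_lc.CF.Nice

/-!
# Module SqB (M): the square of a root step and a step inside the substitution

`A = rl q σ`, `B = lsub τ q.1`, `C = lsub τ q.2`, `D = rl q (fun x => (τ x).tgt)`.

First the lemmas on `lsub` (induction on `t`). Then: a leaf `e` of `tgt C = q.2.subst (tgt ∘ τ)` is
`k ++ p` with `q.2.subAt k = var x` (`lv_subst_cases`), `anc C e = k ++ anc (τ x) p`
(`anc_lsub`), `anc D e = vpos q.1 x ++ p` (`along_append`), and both sides of `comm` are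
`vpos q.1 x ++ anc (τ x) p` (`x` occurs in `q.1` by `hR.trs` and `occ_of_subAt`; `vpos_spec`).
`inj`: from `k ++ a = k' ++ b` with `q.2.subAt k = var x`, `q.2.subAt k' = var x'` one gets
`(x, a) = (x', b)` by `along_append`, hence `k = k'`; then cancel `vpos q.1 x`.
`supC`: `mem_sup_lsub`, `sup_lsub_cases`. `supD`: `lv_subst_cases` for `q.1` (no constants),
`anc_lsub`, `nice` for `τ x`, `mem_lv_subst`.
-/

set_option autoImplicit false

namespace Pool.Agent.Work.MP_d87e04_lc.CF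

universe u

variable {F : Type u} {ar : F → ℕ}

@[simp] theorem PT.src_lsub (τ : ℕ → PT F ar) (t : Tm F ar) :
    (PT.lsub τ t).src = t.subst fun x => (τ x).src := by
  induction t with
  | var x => rfl
  | app f a ih => simp only [PT.lsub, PT.src, Tm.subst_app, ih]

@[simp] theorem PT.tgt_lsub (τ : ℕ → PT F ar) (t : Tm F ar) :
    (PT.lsub τ t).tgt = t.subst fun x => (τ x).tgt := by
  induction t with
  | var x => rfl
  | app f a ih => simp only [PT.lsub, PT.tgt, Tm.subst_app, ih]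

theorem PT.ok_lsub {R : Set (Rule F ar)} {τ : ℕ → PT F ar} (h : ∀ x, (τ x).OK R)
    (t : Tm F ar) : (PT.lsub τ t).OK R := by
  induction t with
  | var x => exact h x
  | app f a ih => exact fun i => ih i

private theorem subAt_nil'' {t s : Tm F ar} (h : t.subAt [] = some s) : t = s := by
  cases t <;> exact Option.some.inj h

private theorem subAt_cons'' {f : F} {a : Fin (ar f) → Tm F ar} {i : ℕ} {p : List ℕ}
    {s : Tm F ar} (h : (Tm.app f a).subAt (i :: p) = some s) :
    ∃ h : i < ar f, (a ⟨i, h⟩).subAt p = some s := by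
  simp only [Tm.subAt] at h
  split at h
  · rename_i hi
    exact ⟨hi, h⟩
  · exact absurd h (by simp)

theorem PT.anc_lsub (τ : ℕ → PT F ar) {t : Tm F ar} {k : List ℕ} {x : ℕ}
    (h : t.subAt k = some (Tm.var x)) (p : List ℕ) :
    (PT.lsub τ t).anc (k ++ p) = k ++ (τ x).anc p := by
  induction k generalizing t with
  | nil =>
    obtain rfl := subAt_nil'' h
    rfl
  | cons i k ih =>
    cases t with
    | var y => exact absurd h (by simp [Tm.subAt])
    | app f a =>
      obtain ⟨hi, h⟩ := subAt_cons'' h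
      rw [List.cons_append, List.cons_append]
      simp only [PT.lsub, PT.anc, dif_pos hi]
      rw [ih h]

theorem PT.mem_sup_lsub (τ : ℕ → PT F ar) {t : Tm F ar} {k : List ℕ} {x : ℕ}
    (h : t.subAt k = some (Tm.var x)) (p : List ℕ) :
    k ++ p ∈ (PT.lsub τ t).sup ↔ p ∈ (τ x).sup := by
  induction k generalizing t with
  | nil =>
    obtain rfl := subAt_nil'' h
    exact Iff.rfl
  | cons i k ih =>
    cases t with
    | var y => exact absurd h (by simp [Tm.subAt])
    | app f a =>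
      obtain ⟨hi, h⟩ := subAt_cons'' h
      rw [List.cons_append]
      simp only [PT.lsub]
      rw [mem_sup_cons]
      exact ⟨fun ⟨_, h'⟩ => (ih h).1 h', fun h' => ⟨hi, (ih h).2 h'⟩⟩

theorem PT.sup_lsub_cases (τ : ℕ → PT F ar) {t : Tm F ar} {p : List ℕ}
    (h : p ∈ (PT.lsub τ t).sup) :
    ∃ k x q, t.subAt k = some (Tm.var x) ∧ q ∈ (τ x).sup ∧ p = k ++ q := by
  induction t generalizing p with
  | var x => exact ⟨[], x, p, rfl, h, rfl⟩
  | app f a ih =>
    simp only [PT.lsub] at h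
    cases p with
    | nil => exact absurd h nil_mem_sup_app
    | cons i p =>
      obtain ⟨hi, hp⟩ := mem_sup_cons.1 h
      obtain ⟨k, x, q, h1, h2, h3⟩ := ih ⟨i, hi⟩ hp
      refine ⟨i :: k, x, q, ?_, h2, by rw [h3, List.cons_append]⟩
      simp only [Tm.subAt, dif_pos hi]
      exact h1

theorem sq_rl {R : Set (Rule F ar)} (hR : Cf R) {q : Rule F ar} (hq : q ∈ R)
    {τ : ℕ → PT F ar} (hτ : ∀ x, (τ x).OK R) :
    (cal F ar).Sq (PT.rl q fun x => (τ x).src) (PT.lsub τ q.1) (PT.lsub τ q.2)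
      (PT.rl q fun x => (τ x).tgt) := by
  have hv : ∀ {k : List ℕ} {x : ℕ}, q.2.subAt k = some (Tm.var x) →
      q.1.subAt (vpos q.1 x) = some (Tm.var x) := fun h =>
    vpos_spec ((hR.trs q hq).2 _ (occ_of_subAt h))
  have hanc : ∀ (σ : ℕ → Tm F ar) {k : List ℕ} {x : ℕ}, q.2.subAt k = some (Tm.var x) →
      ∀ p, (PT.rl q σ).anc (k ++ p) = vpos q.1 x ++ p := by
    intro σ k x h p
    simp only [PT.anc]
    rw [along_append h]
  refine ⟨?_, ?_, ?_, ?_, ?_, ?_, ?_, ?_⟩
  · exact (PT.src_lsub τ q.1).symm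
  · exact PT.src_lsub τ q.2
  · exact (PT.tgt_lsub τ q.1).symm
  · exact PT.tgt_lsub τ q.2
  · change ∀ e ∈ lv (PT.lsub τ q.2).tgt,
      (PT.rl q fun x => (τ x).src).anc ((PT.lsub τ q.2).anc e) =
        (PT.lsub τ q.1).anc ((PT.rl q fun x => (τ x).tgt).anc e)
    intro e he
    rw [PT.tgt_lsub] at he
    obtain ⟨k, x, p, h1, h2, rfl⟩ := lv_subst_cases (hR.nc2 q hq) he
    rw [PT.anc_lsub τ h1, hanc _ h1, hanc _ h1, PT.anc_lsub τ (hv h1)]
  · change ∀ e ∈ lv (PT.lsub τ q.2).tgt, ∀ e' ∈ lv (PT.lsub τ q.2).tgt,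
      (PT.lsub τ q.2).anc e = (PT.lsub τ q.2).anc e' →
      (PT.rl q fun x => (τ x).tgt).anc e = (PT.rl q fun x => (τ x).tgt).anc e' → e = e'
    intro e he e' he' hC hD
    rw [PT.tgt_lsub] at he he'
    obtain ⟨k, x, p, h1, h2, rfl⟩ := lv_subst_cases (hR.nc2 q hq) he
    obtain ⟨k', x', p', h1', h2', rfl⟩ := lv_subst_cases (hR.nc2 q hq) he'
    rw [PT.anc_lsub τ h1, PT.anc_lsub τ h1'] at hC
    rw [hanc _ h1, hanc _ h1'] at hD
    have ha := congrArg (along q.2) hC
    rw [along_append h1, along_append h1'] at ha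
    obtain ⟨hx, ha⟩ := Prod.mk.inj ha
    subst hx
    rw [ha] at hC
    have hk : k = k' := List.append_cancel_right hC
    have hp : p = p' := List.append_cancel_left hD
    rw [hk, hp]
  · change ∀ p ∈ (PT.lsub τ q.2).sup,
      (PT.rl q fun x => (τ x).src).anc p ∈ (PT.lsub τ q.1).sup
    intro p hp
    obtain ⟨k, x, r, h1, h2, rfl⟩ := PT.sup_lsub_cases τ hp
    rw [hanc _ h1]
    exact (PT.mem_sup_lsub τ (hv h1) r).2 h2
  · change ∀ p ∈ lv (q.1.subst fun x => (τ x).tgt),
      (PT.lsub τ q.1).anc p ∈ lv (q.1.subst fun x => (τ x).src)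
    intro p hp
    obtain ⟨k, x, r, h1, h2, rfl⟩ := lv_subst_cases (hR.nc1 q hq) hp
    rw [PT.anc_lsub τ h1]
    exact (mem_lv_subst h1 _ _).2 ((nice hR (hτ x)).anc_mem r h2)

end Pool.Agent.Work.MP_d87e04_lc.CF
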