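import Pool.Agent.Work.MP_d87e04_lc.CF.Defs

/-!
# Module Ov (S): the overlap lemma

This is `overlap` / `overlapP` of `Basic.lean`, `PDefs.lean` (copy the proof of `overlap`) with the
position data as hypotheses (`NV.pos` gives exactly these data there) and with `Par` in the
conclusion: in the case of variants use `Par.refl`, otherwise `Par.subst`.
-/

set_option autoImplicit false

namespace Pool.Agent.Work.MP_d87e04_lc.CF

universe u

variable {F : Type u} {ar : F → ℕ}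

theorem overlapQ {R : Set (Rule F ar)} (hR : IsTRS R) (hL : LeftLinear R)
    (hC : ∀ t s, CriticalPair R t s → Par R s t ∨ Par R t s)
    {q : Rule F ar} (hq : q ∈ R) {σ : ℕ → Tm F ar} {p : List ℕ} {u : Tm F ar}
    {q' : Rule F ar} {ψ : ℕ → Tm F ar} (h1 : q.1.subAt p = some u) (h2 : ∀ x, u ≠ Tm.var x)
    (h3 : q' ∈ R) (h4 : u.subst σ = q'.1.subst ψ) :
    Par R (q.2.subst σ) ((q.1.subst σ).repl p (q'.2.subst ψ)) ∨
      Par R ((q.1.subst σ).repl p (q'.2.subst ψ)) (q.2.subst σ) := by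
  -- rename apart
  let ρ₁ : ℕ → ℕ := fun x => 2 * x + 1
  let ρ₂ : ℕ → ℕ := fun x => 2 * x
  have i1 : Function.Injective ρ₁ := fun x y h => by simp only [ρ₁] at h; omega
  have i2 : Function.Injective ρ₂ := fun x y h => by simp only [ρ₂] at h; omega
  have i12 : ∀ x y, ρ₁ x ≠ ρ₂ y := fun x y h => by simp only [ρ₁, ρ₂] at h; omega
  let χ : ℕ → Tm F ar := fun x => if x % 2 = 0 then σ (x / 2) else ψ (x / 2)
  have hχ2 : ∀ t : Tm F ar, (t.ren ρ₂).subst χ = t.subst σ := by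
    intro t
    rw [Tm.ren, Tm.subst_subst]
    refine Tm.subst_congr t fun x _ => ?_
    simp [χ, ρ₂]
  have hχ1 : ∀ t : Tm F ar, (t.ren ρ₁).subst χ = t.subst ψ := by
    intro t
    rw [Tm.ren, Tm.subst_subst]
    refine Tm.subst_congr t fun x _ => ?_
    have : (2 * x + 1) / 2 = x := by omega
    simp [χ, ρ₁, this]
  have hu : (q.1.ren ρ₂).subAt p = some (u.ren ρ₂) := Tm.subAt_subst _ _ _ _ h1
  have hlu : u.Linear := fun x => (Tm.subAt_linear _ _ _ h1 x).trans (hL q hq x)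
  obtain ⟨θ, hθ, hθ'⟩ := Tm.exists_mgu (u.ren ρ₂) (q'.1.ren ρ₁) (hlu.ren i2)
    (Tm.Linear.ren i1 (hL q' h3)) (by
      intro x hx hx'
      obtain ⟨a, ha, _⟩ := Tm.occ_ren_pos _ hx
      obtain ⟨b, hb, _⟩ := Tm.occ_ren_pos _ hx'
      exact i12 b a (hb.trans ha.symm)) ⟨χ, by rw [hχ2, hχ1, h4]⟩
  have hun : (u.ren ρ₂).subst χ = (q'.1.ren ρ₁).subst χ := by rw [hχ2, hχ1, h4]
  have hfac : ∀ t : Tm F ar, (t.subst θ).subst χ = t.subst χ := by
    intro t
    rw [Tm.subst_subst]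
    exact Tm.subst_congr t fun x _ => hθ' χ hun x
  have hnv : ∀ x, u.ren ρ₂ ≠ Tm.var x := by
    intro x
    cases u with
    | var z => exact (h2 z rfl).elim
    | app f a => simp [Tm.ren]
  by_cases hvar : p = [] ∧ Variant q' q
  · left
    obtain ⟨hp, π, hπ1, hπ2⟩ := hvar
    subst hp
    simp only [Tm.subAt] at h1
    have hu1 : u = q.1 := by
      cases hq1 : q.1 <;> simp only [hq1, Tm.subAt, Option.some.injEq] at h1 <;> exact h1.symm
    rw [hu1, ← hπ1, Tm.ren, Tm.subst_subst] at h4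
    have h6 := Tm.subst_inj _ h4
    have h7 : (q.1.subst σ).repl [] (q'.2.subst ψ) = q'.2.subst ψ := by
      cases q.1.subst σ <;> rfl
    have h8 : q.2.subst σ = q'.2.subst ψ := by
      rw [← hπ2, Tm.ren, Tm.subst_subst]
      exact Tm.subst_congr _ fun x hx => h6 x ((hR q' h3).2 x hx)
    rw [h7, h8]
    exact Par.refl _
  · have hcp : CriticalPair R (((q.1.ren ρ₂).subst θ).repl p ((q'.2.ren ρ₁).subst θ))
        ((q.2.ren ρ₂).subst θ) :=
      ⟨q'.1, q'.2, q.1, q.2, h3, hq, ρ₁, ρ₂, i1, i2, i12, p, u.ren ρ₂, θ, hu, hnv,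
        ⟨hθ, fun τ hτ => ⟨τ, fun x => (hθ' τ hτ x).symm⟩⟩,
        fun hp hv => hvar ⟨hp, hv⟩, rfl, rfl⟩
    have ht : (((q.1.ren ρ₂).subst θ).repl p ((q'.2.ren ρ₁).subst θ)).subst χ =
        (q.1.subst σ).repl p (q'.2.subst ψ) := by
      rw [Tm.repl_subst χ _ _ p _ (Tm.subAt_subst θ _ _ _ hu), hfac, hfac, hχ2, hχ1]
    have hs : ((q.2.ren ρ₂).subst θ).subst χ = q.2.subst σ := by rw [hfac, hχ2]
    rcases hC _ _ hcp with h6 | h6
    · left
      have := h6.subst χ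
      rwa [ht, hs] at this
    · right
      have := h6.subst χ
      rwa [ht, hs] at this

end Pool.Agent.Work.MP_d87e04_lc.CF
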