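import Pool.Agent.Work.MP_d87e04_lc.CF.Nice
import Pool.Agent.Work.MP_d87e04_lc.CF.Atp
import Pool.Agent.Work.MP_d87e04_lc.CF.Lin
import Pool.Agent.Work.MP_d87e04_lc.CF.Ov

/-!
# Module TriB (M-L): the triangle of a critical overlap

Let `l = q.1`, `t = l σ`, `X = rl q σ` (root step), `Y = atp t p (rl q' ψ)` (inner step at the
non-variable position `p` of `l`).

Linearization. Put `σ' x = lin (vpos l x) (σ x)`, `ψ' x = lin (p ++ vpos q'.1 x) (ψ x)`. By
`lin_subst_pat` (with `vpos_eq`, left-linearity, no constants) `lin [] t = l σ'` and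
`lin p (q'.1 ψ) = q'.1 ψ'`; `u σ' = q'.1 ψ'` since both are the subterm of `lin [] t` at `p`
(`lin_at`, `Tm.subAt_subst`; `t.subAt p = u σ = q'.1 ψ`).
Let `X' = rl q σ'`, `Y' = atp (l σ') p (rl q' ψ')`. By `overlapQ` (for `σ'`, `ψ'`) and `exists_pt`
there is `Z'` with `src Z' = tgt X'`, `tgt Z' = tgt Y'` (or the reverse). Since
`src X' = src Y' = lin [] t`, for every leaf `e` of `tgt Y'`, by `subAt_anc` and `lin_mem`,
`(tgt Y').subAt e = var (enc (anc Y' e))`, and also, by `subAt_anc` for `Z'` and `X'`,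
`(tgt Z').subAt e = (src Z').subAt (anc Z' e) = (tgt X').subAt (anc Z' e)
 = var (enc (anc X' (anc Z' e)))` (with `anc_mem` of `nice`); so `comm` holds by `enc_inj`.

Back. Take `δ` of `unlin t`, `Z = Z'.psub δ`. By `PT.anc_psub`, `PT.sup_psub`, `PT.src_psub`,
`PT.tgt_psub`, `lv_subst_leaf`, the triangle of `X'`, `Y'`, `Z'` gives that of `X'.psub δ`,
`Y'.psub δ`, `Z`. `X'.psub δ = rl q (fun x => (σ' x).subst δ)` has the same source, target,
ancestor map and support as `X` (`Tm.subst_inj` applied to `(l σ') δ = l σ` gives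
`(σ' x) δ = σ x` on the variables of `l`, then `Tm.subst_congr` for `q.2`); the same for
`Y'.psub δ` and `Y` (`PT.psub_atp`, `PT.anc_atp_congr`, `PT.mem_sup_atp`, `PT.tgt_atp`).

Support: `sup X` is `lv t` and `sup Y ⊆ lv t` (`nice`), so `supZ` follows from `anc_mem` of `nice`
(`sup Z ⊆ lv (src Z) = lv (tgt X)`); in the case `Tri Y X Z` as well, since `sup Y ∪ sup X`
contains `lv t`. `meet`: `sup Y` is not empty (`lv_nonempty`, `PT.mem_sup_atp`) and is contained in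
`lv t = sup X`.
-/

set_option autoImplicit false

namespace Pool.Agent.Work.MP_d87e04_lc.CF

universe u

variable {F : Type u} {ar : F → ℕ}

private theorem comm_lin {R : Set (Rule F ar)} (hR : Cf R) {t : Tm F ar} {W W' Z : PT F ar}
    (hW : W.OK R) (hW' : W'.OK R) (hZ : Z.OK R) (h1 : W.src = lin [] t) (h2 : W'.src = lin [] t)
    (h3 : Z.src = W.tgt) (h4 : Z.tgt = W'.tgt) :
    ∀ e ∈ lv W'.tgt, W.anc (Z.anc e) = W'.anc e := by
  intro e he
  have a1 : W'.anc e ∈ lv W'.src := (nice hR hW').anc_mem e he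
  have he' : e ∈ lv Z.tgt := by rw [h4]; exact he
  have a2 : Z.anc e ∈ lv Z.src := (nice hR hZ).anc_mem e he'
  have a2' : Z.anc e ∈ lv W.tgt := by rw [← h3]; exact a2
  have a3 : W.anc (Z.anc e) ∈ lv W.src := (nice hR hW).anc_mem _ a2'
  have b1 := subAt_anc hR hW' e he
  have b2 := subAt_anc hR hZ e he'
  have b3 := subAt_anc hR hW _ a2'
  rw [h2] at a1 b1
  rw [h1] at a3 b3
  rw [lv_lin] at a1 a3
  rw [lin_mem a1] at b1
  rw [lin_mem a3] at b3
  rw [h3, b3, h4, b1] at b2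
  have := enc_inj (Tm.var.inj (Option.some.inj b2))
  simpa using this.symm

theorem tri_base {R : Set (Rule F ar)} (hR : Cf R)
    (hC : ∀ t s, CriticalPair R t s → Par R s t ∨ Par R t s)
    {q : Rule F ar} (hq : q ∈ R) {σ : ℕ → Tm F ar} {p : List ℕ} {u : Tm F ar}
    {q' : Rule F ar} {ψ : ℕ → Tm F ar} (h1 : q.1.subAt p = some u) (h2 : ∀ x, u ≠ Tm.var x)
    (h3 : q' ∈ R) (h4 : u.subst σ = q'.1.subst ψ) :
    ∃ Z : PT F ar, Z.OK R ∧
      ((cal F ar).Tri (PT.rl q σ) (PT.atp (q.1.subst σ) p (PT.rl q' ψ)) Z ∨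
        (cal F ar).Tri (PT.atp (q.1.subst σ) p (PT.rl q' ψ)) (PT.rl q σ) Z) := by
  classical
  have hl : q.1.Linear := hR.ll q hq
  have hl' : q'.1.Linear := hR.ll q' h3
  let σ' : ℕ → Tm F ar := fun x => lin (vpos q.1 x) (σ x)
  let ψ' : ℕ → Tm F ar := fun x => lin (p ++ vpos q'.1 x) (ψ x)
  have hA : lin [] (q.1.subst σ) = q.1.subst σ' := by
    refine lin_subst_pat (hR.nc1 q hq) fun k x hk => ?_
    show lin (vpos q.1 x) (σ x) = _
    rw [vpos_eq hl hk, List.nil_append]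
  have hB : lin p (q'.1.subst ψ) = q'.1.subst ψ' := by
    refine lin_subst_pat (hR.nc1 q' h3) fun k x hk => ?_
    show lin (p ++ vpos q'.1 x) (ψ x) = _
    rw [vpos_eq hl' hk]
  have hat : (q.1.subst σ).subAt p = some (q'.1.subst ψ) := by
    rw [Tm.subAt_subst σ q.1 p u h1, h4]
  have hat' : (q.1.subst σ').subAt p = some (q'.1.subst ψ') := by
    rw [← hA, lin_at hat, List.nil_append, hB]
  have hC' : u.subst σ' = q'.1.subst ψ' := by
    have := Tm.subAt_subst σ' q.1 p u h1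
    rw [hat'] at this
    exact (Option.some.inj this).symm
  obtain ⟨δ, hδ, hδt⟩ := unlin (q.1.subst σ)
  rw [hA] at hδt
  have hσδ : ∀ x, 0 < q.1.occ x → (σ' x).subst δ = σ x := by
    rw [Tm.subst_subst] at hδt
    exact Tm.subst_inj q.1 hδt
  have hψt : (q'.1.subst ψ').subst δ = q'.1.subst ψ := by
    have := Tm.subAt_subst δ (q.1.subst σ') p _ hat'
    rw [hδt, hat] at this
    exact (Option.some.inj this).symm
  have hψδ : ∀ x, 0 < q'.1.occ x → (ψ' x).subst δ = ψ x := by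
    rw [Tm.subst_subst] at hψt
    exact Tm.subst_inj q'.1 hψt
  have hX : (q.2.subst σ').subst δ = q.2.subst σ := by
    rw [Tm.subst_subst]
    exact Tm.subst_congr q.2 fun x hx => hσδ x ((hR.trs q hq).2 x hx)
  have hY2 : (q'.2.subst ψ').subst δ = q'.2.subst ψ := by
    rw [Tm.subst_subst]
    exact Tm.subst_congr q'.2 fun x hx => hψδ x ((hR.trs q' h3).2 x hx)
  -- the steps
  set X : PT F ar := PT.rl q σ with hXd
  set Y : PT F ar := PT.atp (q.1.subst σ) p (PT.rl q' ψ) with hYd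
  let X' : PT F ar := PT.rl q σ'
  let Y' : PT F ar := PT.atp (q.1.subst σ') p (PT.rl q' ψ')
  have okX : X.OK R := hq
  have okX' : X'.OK R := hq
  have okY : Y.OK R := PT.ok_atp (A := PT.rl q' ψ) h3
  have okY' : Y'.OK R := PT.ok_atp (A := PT.rl q' ψ') h3
  have srcX : X.src = q.1.subst σ := rfl
  have srcX' : X'.src = q.1.subst σ' := rfl
  have srcY : Y.src = q.1.subst σ := PT.src_atp (A := PT.rl q' ψ) hat
  have srcY' : Y'.src = q.1.subst σ' := PT.src_atp (A := PT.rl q' ψ') hat'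
  have tgtX : X.tgt = q.2.subst σ := rfl
  have tgtX' : X'.tgt = q.2.subst σ' := rfl
  have tgtY : Y.tgt = (q.1.subst σ).repl p (q'.2.subst ψ) := PT.tgt_atp (A := PT.rl q' ψ) hat
  have tgtY' : Y'.tgt = (q.1.subst σ').repl p (q'.2.subst ψ') :=
    PT.tgt_atp (A := PT.rl q' ψ') hat'
  have tX : X'.tgt.subst δ = X.tgt := hX
  have tY : Y'.tgt.subst δ = Y.tgt := by
    rw [tgtY', tgtY, Tm.repl_subst δ _ _ p _ hat', hδt, hY2]
  have ancX : X.anc = X'.anc := by
    funext e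
    simp only [hXd, X', PT.anc]
  have ancY : Y.anc = Y'.anc := by
    have e1 : (Y'.psub δ).anc = Y'.anc := PT.anc_psub hδ Y'
    have e2 : Y'.psub δ = PT.atp (q.1.subst σ) p ((PT.rl q' ψ').psub δ) := by
      show (PT.atp (q.1.subst σ') p (PT.rl q' ψ')).psub δ = _
      rw [PT.psub_atp δ (A := PT.rl q' ψ') hat', hδt]
    rw [← e1, e2]
    refine PT.anc_atp_congr ?_
    funext e
    simp only [PT.psub, PT.anc]
  have supX : X.sup = lv (q.1.subst σ) := rfl
  have nX := nice hR okX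
  have nY := nice hR okY
  have meet : (X.sup ∩ Y.sup).Nonempty := by
    obtain ⟨e, he⟩ := lv_nonempty (q'.1.subst ψ)
    have hm : p ++ e ∈ Y.sup := (PT.mem_sup_atp (A := PT.rl q' ψ) hat _).2 ⟨e, he, rfl⟩
    have hm2 : p ++ e ∈ lv Y.src := nY.sup_sub hm
    rw [srcY] at hm2
    exact ⟨p ++ e, Finset.mem_inter.2 ⟨hm2, hm⟩⟩
  have hlin : ∀ {W : PT F ar}, W.src = q.1.subst σ' → W.src = lin [] (q.1.subst σ) :=
    fun h => h.trans hA.symm
  rcases overlapQ hR.trs hR.ll hC hq (σ := σ') (ψ := ψ') h1 h2 h3 hC' with h | h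
  · obtain ⟨Z', okZ', srcZ', tgtZ'⟩ := exists_pt h
    have hc := comm_lin hR okX' okY' okZ' (hlin srcX') (hlin srcY') srcZ'
      (tgtZ'.trans tgtY'.symm)
    have okZ : (Z'.psub δ).OK R := PT.ok_psub δ okZ'
    have srcZ : (Z'.psub δ).src = X.tgt := by rw [PT.src_psub, srcZ']; exact hX
    have tgtZ : (Z'.psub δ).tgt = Y.tgt := by rw [PT.tgt_psub, tgtZ', ← tgtY', tY]
    refine ⟨Z'.psub δ, okZ, Or.inl ⟨?_, srcZ, tgtZ, ?_, ?_, meet⟩⟩
    · show X.src = Y.src
      rw [srcX, srcY]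
    · show ∀ e ∈ lv Y.tgt, X.anc ((Z'.psub δ).anc e) = Y.anc e
      intro e he
      rw [ancX, ancY, PT.anc_psub hδ]
      rw [← tY, lv_subst_leaf hδ] at he
      exact hc e he
    · show ∀ e ∈ (Z'.psub δ).sup, X.anc e ∈ X.sup ∪ Y.sup
      intro e he
      have he1 : e ∈ lv (Z'.psub δ).src := (nice hR okZ).sup_sub he
      rw [srcZ] at he1
      exact Finset.mem_union_left _ (nX.anc_mem e he1)
  · obtain ⟨Z', okZ', srcZ', tgtZ'⟩ := exists_pt h
    have hc := comm_lin hR okY' okX' okZ' (hlin srcY') (hlin srcX') (srcZ'.trans tgtY'.symm)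
      tgtZ'
    have okZ : (Z'.psub δ).OK R := PT.ok_psub δ okZ'
    have srcZ : (Z'.psub δ).src = Y.tgt := by rw [PT.src_psub, srcZ', ← tgtY', tY]
    have tgtZ : (Z'.psub δ).tgt = X.tgt := by rw [PT.tgt_psub, tgtZ']; exact hX
    refine ⟨Z'.psub δ, okZ, Or.inr ⟨?_, srcZ, tgtZ, ?_, ?_, ?_⟩⟩
    · show Y.src = X.src
      rw [srcX, srcY]
    · show ∀ e ∈ lv X.tgt, Y.anc ((Z'.psub δ).anc e) = X.anc e
      intro e he
      rw [ancX, ancY, PT.anc_psub hδ]
      rw [← tX, lv_subst_leaf hδ] at he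
      exact hc e he
    · show ∀ e ∈ (Z'.psub δ).sup, Y.anc e ∈ Y.sup ∪ X.sup
      intro e he
      have he1 : e ∈ lv (Z'.psub δ).src := (nice hR okZ).sup_sub he
      rw [srcZ] at he1
      have h5 : Y.anc e ∈ lv Y.src := nY.anc_mem e he1
      rw [srcY] at h5
      exact Finset.mem_union_right _ h5
    · show (Y.sup ∩ X.sup).Nonempty
      rw [Finset.inter_comm]
      exact meet

end Pool.Agent.Work.MP_d87e04_lc.CF
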