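import Pool.Agent.Work.MP_d87e04_lc.CF.Dich
import Pool.Agent.Work.MP_d87e04_lc.CF.SqB
import Pool.Agent.Work.MP_d87e04_lc.CF.TriB

/-!
# Module Peak (M): all peaks

Induction on `A`, for all `B` (`P A B` = the disjunction in `Cal.Peaks`). First note the symmetry
of the disjunction in `A`, `B` (swap `C`, `D` in `Sq`; swap the two splittings and the two
triangles).
* `rl q σ` against any `B` with `B.src = q.1.subst σ`: `dich` with `P = q.1`. First alternative:
  `B = lsub τ q.1`, `σ = fun x => (τ x).src`, square by `sq_rl`. Second alternative: `α = A`,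
  `A' = ofTm (q.2.subst σ)` (`split_self`), `β = atp ..`, triangle by `tri_base`.
* by symmetry any `A` against `rl q σ`.
* `var x` against `var x`: the square of identities. `var` against `app`: impossible.
* `app f a` against `app f b` (sources equal gives the same `f` and equal sources of the
  arguments): by induction each pair `a i`, `b i` is of one of the two kinds. If all have squares,
  `choose` and `sq_app`. Otherwise for some `i` use `split_app` twice and `tri_app` with
  `u j = (a j).src = (b j).src`.
-/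

set_option autoImplicit false

namespace Pool.Agent.Work.MP_d87e04_lc.CF

universe u

variable {F : Type u} {ar : F → ℕ}

private def Cl (R : Set (Rule F ar)) (A B : PT F ar) : Prop :=
  (∃ C : PT F ar, C.OK R ∧ ∃ D : PT F ar, D.OK R ∧ (cal F ar).Sq A B C D) ∨
  ∃ α : PT F ar, α.OK R ∧ ∃ A' : PT F ar, A'.OK R ∧ ∃ β : PT F ar, β.OK R ∧
    ∃ B' : PT F ar, B'.OK R ∧ ∃ Z : PT F ar, Z.OK R ∧
    (cal F ar).Split A α A' ∧ (cal F ar).Split B β B' ∧
      ((cal F ar).Tri α β Z ∨ (cal F ar).Tri β α Z)

private theorem Cl.symm {R : Set (Rule F ar)} {A B : PT F ar} (h : Cl R A B) : Cl R B A := by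
  rcases h with ⟨C, hC, D, hD, h⟩ | ⟨α, h1, A', h2, β, h3, B', h4, Z, h5, h6, h7, h8⟩
  · refine Or.inl ⟨D, hD, C, hC, ⟨h.src_eq.symm, h.srcD, h.srcC, h.tgt_eq.symm, ?_, ?_,
      h.supD, h.supC⟩⟩
    · intro e he
      rw [← h.tgt_eq] at he
      exact (h.comm e he).symm
    · intro e he e' he' k1 k2
      rw [← h.tgt_eq] at he he'
      exact h.inj e he e' he' k2 k1
  · exact Or.inr ⟨β, h3, B', h4, α, h1, A', h2, Z, h5, h7, h6, h8.symm⟩

private theorem ok_atp' {R : Set (Rule F ar)} {A : PT F ar} (hA : A.OK R) (p : List ℕ) :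
    ∀ t : Tm F ar, (PT.atp t p A).OK R := by
  intro t
  exact PT.ok_atp hA

private theorem root {R : Set (Rule F ar)} (hR : Cf R)
    (hC : ∀ t s, CriticalPair R t s → Par R s t ∨ Par R t s) {q : Rule F ar} (hq : q ∈ R)
    {σ : ℕ → Tm F ar} {B : PT F ar} (hB : B.OK R) (hs : B.src = q.1.subst σ) :
    Cl R (PT.rl q σ) B := by
  rcases dich (hR.ll q hq) hB hs with ⟨τ, h1, h2, rfl⟩ | ⟨p, u, q', ψ, B', k1, k2, k3, k4, k5, k6⟩
  · left
    have hσ : σ = fun x => (τ x).src := funext fun x => (h2 x).symm
    refine ⟨PT.lsub τ q.2, PT.ok_lsub h1 _, PT.rl q fun x => (τ x).tgt, hq, ?_⟩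
    rw [hσ]
    exact sq_rl hR hq h1
  · right
    obtain ⟨Z, hZ, hZ'⟩ := tri_base hR hC hq k1 k2 k3 k4
    exact ⟨PT.rl q σ, hq, PT.ofTm (q.2.subst σ), PT.ok_ofTm R _, _, ok_atp' (A := PT.rl q' ψ) k3 p _,
      B', k5, Z, hZ, split_self, k6, hZ'⟩

private theorem ok_update {R : Set (Rule F ar)} {f : F} {A : Fin (ar f) → PT F ar}
    (hA : ∀ i, (A i).OK R) (i : Fin (ar f)) {X : PT F ar} (hX : X.OK R) :
    (PT.app f (Function.update A i X)).OK R := by
  intro j
  by_cases h : j = i
  · subst h
    rw [Function.update_self]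
    exact hX
  · rw [Function.update_of_ne h]
    exact hA j

private theorem all {R : Set (Rule F ar)} (hR : Cf R)
    (hC : ∀ t s, CriticalPair R t s → Par R s t ∨ Par R t s) (A : PT F ar) :
    ∀ B : PT F ar, A.OK R → B.OK R → A.src = B.src → Cl R A B := by
  induction A with
  | rl q σ =>
    intro B hA hB hs
    exact root hR hC hA hB hs.symm
  | var x =>
    intro B hA hB hs
    cases B with
    | rl q σ => exact (root hR hC hB hA hs).symm
    | app g b =>
      exfalso
      have h : (Tm.var x : Tm F ar) = Tm.app g fun i => (b i).src := hs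
      cases h
    | var y =>
      have hxy : x = y := Tm.var.inj (show (Tm.var x : Tm F ar) = Tm.var y from hs)
      subst hxy
      left
      refine ⟨PT.var x, trivial, PT.var x, trivial, ⟨rfl, rfl, rfl, rfl, fun e _ => rfl,
        fun e _ e' _ h _ => h, ?_, ?_⟩⟩
      · intro p hp
        exact absurd hp (Finset.notMem_empty _)
      · intro p hp
        exact absurd hp (Finset.notMem_empty _)
  | app f a ih =>
    intro B hA hB hs
    cases B with
    | rl q σ => exact (root hR hC hB hA hs).symm
    | var x =>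
      exfalso
      have h : (Tm.app f fun i => (a i).src) = (Tm.var x : Tm F ar) := hs
      cases h
    | app g b =>
      have hs' : (Tm.app f fun i => (a i).src) = Tm.app g fun i => (b i).src := hs
      obtain ⟨rfl, h2⟩ := Tm.app.inj hs'
      have hab : ∀ i, (a i).src = (b i).src := fun i => congrFun (eq_of_heq h2) i
      have hAo : ∀ i, (a i).OK R := hA
      have hBo : ∀ i, (b i).OK R := hB
      have key := fun i => ih i (b i) (hAo i) (hBo i) (hab i)
      by_cases hex : ∀ i, ∃ C : PT F ar, C.OK R ∧ ∃ D : PT F ar, D.OK R ∧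
          (cal F ar).Sq (a i) (b i) C D
      · left
        choose C h3 D h4 h5 using hex
        exact ⟨PT.app f C, h3, PT.app f D, h4, sq_app h5⟩
      · right
        rw [not_forall] at hex
        obtain ⟨i, hi⟩ := hex
        obtain ⟨α, h1, A', h2, β, h3, B', h4, Z, h5, h6, h7, h8⟩ := (key i).resolve_left hi
        have hu : (fun j => PT.ofTm (b j).src) = fun j => PT.ofTm (a j).src := by
          funext j
          rw [hab]
        have hId : ∀ j, (PT.ofTm (a j).src).OK R := fun j => PT.ok_ofTm R _
        have k6 := split_app (f := f) (A := a) (i := i) h6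
        have k7 := split_app (f := f) (A := b) (i := i) h7
        rw [hu] at k7
        refine ⟨_, ok_update hId i h1, _, ok_update hAo i h2, _, ok_update hId i h3, _,
          ok_update hBo i h4, _, ok_update hId i h5, k6, k7, ?_⟩
        rcases h8 with h | h
        · exact Or.inl (tri_app (fun j => (a j).src) h)
        · exact Or.inr (tri_app (fun j => (a j).src) h)

theorem peaks {R : Set (Rule F ar)} (hR : Cf R)
    (hC : ∀ t s, CriticalPair R t s → Par R s t ∨ Par R t s) :
    (cal F ar).Peaks {A | A.OK R} := by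
  intro A hA B hB hs
  exact all hR hC A B hA hB hs

end Pool.Agent.Work.MP_d87e04_lc.CF
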