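import Pool.Agent.Work.MP_d87e04_lc.CF.Zig
import Pool.Agent.Work.MP_d87e04_lc.CF.Peak

/-!
# Confluence of constant-free systems
-/

set_option autoImplicit false

namespace Pool.Agent.Work.MP_d87e04_lc.CF

universe u

variable {F : Type u} {ar : F → ℕ}

open Relation

theorem confluent_cf {R : Set (Rule F ar)} (hR : Cf R)
    (hC : ∀ t s, CriticalPair R t s → Par R s t ∨ Par R t s) : Confluent R := by
  intro a b c hb hc
  have key : ∀ {x y : Tm F ar}, Steps R x y →
      ReflTransGen ((cal F ar).Rel {A | A.OK R}) x y := by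
    intro x y h
    refine ReflTransGen.mono (fun x y hxy => ?_) _ _ h
    obtain ⟨A, hA, h1, h2⟩ := exists_pt_of_step hxy
    exact ⟨A, hA, h1, h2⟩
  have back : ∀ {x y : Tm F ar}, ReflTransGen ((cal F ar).Rel {A | A.OK R}) x y →
      Steps R x y := by
    intro x y h
    induction h with
    | refl => exact ReflTransGen.refl
    | tail _ h2 ih =>
      obtain ⟨A, hA, h3, h4⟩ := h2
      have h5 := (PT.par (R := R) (A := A) hA).steps
      have h6 : A.src = _ := h3
      have h7 : A.tgt = _ := h4
      rw [h6, h7] at h5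
      exact ih.trans h5
  obtain ⟨d, h1, h2⟩ := Cal.confluent (K := cal F ar) (G := {A | A.OK R})
    (fun A hA => nice hR hA) (peaks hR hC) (key hb) (key hc)
  exact ⟨d, back h1, back h2⟩

end Pool.Agent.Work.MP_d87e04_lc.CF
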