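import Pool.Agent.Work.MP_d87e04_lc.CF.Par

/-!
# Module Nice (M): general properties of the ancestor map

Induction on the proof term `A`.

* `subAt_anc`: the leaf of the target at `e` equals the leaf of the source at its ancestor. For
  `A = rl q σ`: by `lv_subst_cases` (the right side has no constants) `e = k ++ p` with
  `q.2.subAt k = var x`, `p ∈ lv (σ x)`; by `along_append` the ancestor is `vpos q.1 x ++ p`, and
  `x` occurs in `q.1` (`hR.trs`, `occ_of_subAt`), so `vpos_spec`, `subAt_append`,
  `Tm.subAt_subst` show that both subterms are `(σ x).subAt p`.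
* `nice`: `anc_mem` follows from `subAt_anc` and `mem_lv_iff` (or directly); `sup_sub` by induction;
  `desc`: a leaf of the source which is not below a redex has a descendant: by induction (for
  `rl` the hypothesis `p ∉ sup` is false; for `app` with `ar f = 0` take `[]`).
-/

set_option autoImplicit false

namespace Pool.Agent.Work.MP_d87e04_lc.CF

universe u

variable {F : Type u} {ar : F → ℕ}

theorem subAt_anc {R : Set (Rule F ar)} (hR : Cf R) {A : PT F ar} (hA : A.OK R) :
    ∀ e ∈ lv A.tgt, A.tgt.subAt e = A.src.subAt (A.anc e) := by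
  induction A with
  | var x =>
    intro e _
    simp only [PT.tgt, PT.src, PT.anc]
  | app f A ih =>
    intro e he
    cases e with
    | nil =>
      simp only [PT.tgt] at he
      have h0 := nil_mem_lv_app.1 he
      simp only [PT.tgt, PT.src, PT.anc, Tm.subAt, Option.some.injEq, Tm.app.injEq, heq_eq_eq,
        true_and]
      funext i
      exact absurd i.2 (by omega)
    | cons i e =>
      simp only [PT.tgt] at he
      obtain ⟨hi, he⟩ := mem_lv_cons.1 he
      have := ih ⟨i, hi⟩ (hA ⟨i, hi⟩) e he
      simp only [PT.tgt, PT.src, PT.anc, Tm.subAt, dif_pos hi]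
      exact this
  | rl q σ =>
    intro e he
    have hq : q ∈ R := hA
    obtain ⟨k, x, p, h1, h2, h3⟩ := lv_subst_cases (hR.nc2 q hq) he
    subst h3
    have hocc : 0 < q.1.occ x := (hR.trs q hq).2 x (occ_of_subAt h1)
    have hv := vpos_spec hocc
    simp only [PT.tgt, PT.src, PT.anc]
    rw [along_append h1]
    rw [subAt_append (Tm.subAt_subst σ _ _ _ h1), subAt_append (Tm.subAt_subst σ _ _ _ hv)]

theorem nice {R : Set (Rule F ar)} (hR : Cf R) {A : PT F ar} (hA : A.OK R) :
    (cal F ar).Nice A := by
  refine ⟨?_, ?_, ?_⟩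
  · intro e he
    have h := subAt_anc hR hA e he
    obtain ⟨s, hs, hl⟩ := mem_lv_iff.1 he
    exact mem_lv_iff.2 ⟨s, h ▸ hs, hl⟩
  · change A.sup ⊆ lv A.src
    clear hA
    induction A with
    | var x => intro p hp; simp [PT.sup] at hp
    | app f A ih =>
      intro p hp
      cases p with
      | nil => exact absurd hp nil_mem_sup_app
      | cons i p =>
        obtain ⟨hi, hp⟩ := mem_sup_cons.1 hp
        exact mem_lv_cons.2 ⟨hi, ih _ hp⟩
    | rl q σ => exact fun p hp => hp
  · change ∀ p ∈ lv A.src, p ∉ A.sup → ∃ e ∈ lv A.tgt, A.anc e = p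
    clear hA
    induction A with
    | var x =>
      intro p hp _
      exact ⟨p, hp, rfl⟩
    | app f A ih =>
      intro p hp hs
      cases p with
      | nil =>
        exact ⟨[], nil_mem_lv_app.2 (nil_mem_lv_app.1 hp), by simp only [PT.anc]⟩
      | cons i p =>
        obtain ⟨hi, hp⟩ := mem_lv_cons.1 hp
        obtain ⟨e, he, hea⟩ := ih ⟨i, hi⟩ p hp fun h => hs (mem_sup_cons.2 ⟨hi, h⟩)
        refine ⟨i :: e, mem_lv_cons.2 ⟨hi, he⟩, ?_⟩
        simp only [PT.anc, dif_pos hi, hea]
    | rl q σ =>
      intro p hp hs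
      exact absurd hp hs

end Pool.Agent.Work.MP_d87e04_lc.CF
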