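import Pool.Agent.Work.MP_d87e04_lc.CF.Lv

/-!
# Module Par (S): proof terms and the relation `Par`

`OK` proof terms describe exactly the relation `Par R` of `PDefs.lean` (induction on `A`, resp. on
`Par`; in the case `refl t` take `ofTm t`, in the case `args` use `choose`). Identity steps.
-/

set_option autoImplicit false

namespace Pool.Agent.Work.MP_d87e04_lc.CF

universe u

variable {F : Type u} {ar : F → ℕ}

@[simp] theorem PT.src_ofTm (t : Tm F ar) : (PT.ofTm t).src = t := by
  induction t with
  | var x => rfl
  | app f a ih => simp only [PT.ofTm, PT.src, ih]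

@[simp] theorem PT.tgt_ofTm (t : Tm F ar) : (PT.ofTm t).tgt = t := by
  induction t with
  | var x => rfl
  | app f a ih => simp only [PT.ofTm, PT.tgt, ih]

theorem PT.ok_ofTm (R : Set (Rule F ar)) (t : Tm F ar) : (PT.ofTm t).OK R := by
  induction t with
  | var x => exact trivial
  | app f a ih => exact ih

@[simp] theorem PT.anc_ofTm (t : Tm F ar) (p : List ℕ) : (PT.ofTm t).anc p = p := by
  induction t generalizing p with
  | var x => rfl
  | app f a ih =>
    cases p with
    | nil => rfl
    | cons i p =>
      simp only [PT.ofTm, PT.anc]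
      split
      · rename_i h
        rw [ih ⟨i, h⟩ p]
      · rfl

@[simp] theorem PT.sup_ofTm (t : Tm F ar) : (PT.ofTm t).sup = ∅ := by
  induction t with
  | var x => rfl
  | app f a ih =>
    simp only [PT.ofTm, PT.sup, ih]
    ext p
    simp

theorem PT.par {R : Set (Rule F ar)} {A : PT F ar} (h : A.OK R) : Par R A.src A.tgt := by
  induction A with
  | var x => exact Par.refl _
  | app f A ih => exact Par.args fun i => ih i (h i)
  | rl q σ => exact Par.root h σ

theorem exists_pt {R : Set (Rule F ar)} {x y : Tm F ar} (h : Par R x y) :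
    ∃ A : PT F ar, A.OK R ∧ A.src = x ∧ A.tgt = y := by
  induction h with
  | refl t => exact ⟨PT.ofTm t, PT.ok_ofTm R t, PT.src_ofTm t, PT.tgt_ofTm t⟩
  | root hq σ => exact ⟨PT.rl _ σ, hq, rfl, rfl⟩
  | args h ih =>
    choose A hA hs ht using ih
    refine ⟨PT.app _ A, hA, ?_, ?_⟩
    · simp only [PT.src, hs]
    · simp only [PT.tgt, ht]

theorem exists_pt_of_step {R : Set (Rule F ar)} {x y : Tm F ar} (h : Step R x y) :
    ∃ A : PT F ar, A.OK R ∧ A.src = x ∧ A.tgt = y := by
  refine exists_pt ?_
  induction h with
  | root hq σ => exact Par.root hq σ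
  | arg a i h ih =>
    refine Par.args fun j => ?_
    by_cases hj : j = i
    · subst hj
      rw [Function.update_self]
      exact ih
    · rw [Function.update_of_ne hj]
      exact Par.refl _

end Pool.Agent.Work.MP_d87e04_lc.CF
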