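import Pool.Agent.Work.MP_d87e04_lc.CF.Par

/-!
# Module Psub (S-M): substitution in steps

Structural inductions. A substitution `δ` whose values are leaves changes neither the leaves nor
the ancestor maps (`anc (var x) p = p`, and `anc (ofTm (δ x)) p = p` by `PT.anc_ofTm`; the
ancestor map of `rl q σ` does not depend on `σ`).
-/

set_option autoImplicit false

namespace Pool.Agent.Work.MP_d87e04_lc.CF

universe u

variable {F : Type u} {ar : F → ℕ}

@[simp] theorem PT.src_psub (δ : ℕ → Tm F ar) (A : PT F ar) :
    (A.psub δ).src = A.src.subst δ := by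
  induction A with
  | var x => simp only [PT.psub, PT.src, PT.src_ofTm, Tm.subst_var]
  | app f A ih => simp only [PT.psub, PT.src, Tm.subst_app, ih]
  | rl q σ => simp only [PT.psub, PT.src, Tm.subst_subst]

@[simp] theorem PT.tgt_psub (δ : ℕ → Tm F ar) (A : PT F ar) :
    (A.psub δ).tgt = A.tgt.subst δ := by
  induction A with
  | var x => simp only [PT.psub, PT.tgt, PT.tgt_ofTm, Tm.subst_var]
  | app f A ih => simp only [PT.psub, PT.tgt, Tm.subst_app, ih]
  | rl q σ => simp only [PT.psub, PT.tgt, Tm.subst_subst]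

theorem PT.ok_psub {R : Set (Rule F ar)} (δ : ℕ → Tm F ar) {A : PT F ar} (h : A.OK R) :
    (A.psub δ).OK R := by
  induction A with
  | var x => exact PT.ok_ofTm R (δ x)
  | app f A ih => exact fun i => ih i (h i)
  | rl q σ => exact h

theorem PT.anc_psub {δ : ℕ → Tm F ar} (hδ : ∀ x, IsLeaf (δ x)) (A : PT F ar) :
    (A.psub δ).anc = A.anc := by
  induction A with
  | var x =>
    funext p
    simp only [PT.psub, PT.anc_ofTm, PT.anc]
  | app f A ih =>
    funext p
    cases p with
    | nil => simp only [PT.psub, PT.anc]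
    | cons i p => simp only [PT.psub, PT.anc, ih]
  | rl q σ =>
    funext p
    simp only [PT.psub, PT.anc]

theorem lv_subst_leaf {δ : ℕ → Tm F ar} (hδ : ∀ x, IsLeaf (δ x)) (t : Tm F ar) :
    lv (t.subst δ) = lv t := by
  induction t with
  | var x =>
    have h := hδ x
    rw [Tm.subst_var]
    cases hx : δ x with
    | var y => simp only [lv]
    | app f a =>
      rw [hx] at h
      have h0 : ar f = 0 := h
      simp only [lv, if_pos h0]
  | app f a ih => simp only [Tm.subst_app, lv, ih]

theorem PT.sup_psub {δ : ℕ → Tm F ar} (hδ : ∀ x, IsLeaf (δ x)) (A : PT F ar) :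
    (A.psub δ).sup = A.sup := by
  induction A with
  | var x => simp only [PT.psub, PT.sup_ofTm, PT.sup]
  | app f A ih => simp only [PT.psub, PT.sup, ih]
  | rl q σ => simp only [PT.psub, PT.sup, ← Tm.subst_subst, lv_subst_leaf hδ]

end Pool.Agent.Work.MP_d87e04_lc.CF
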