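import Pool.Agent.Work.MP_d87e04_lc.CF.Defs

/-!
# Weights: the local inequalities
-/

set_option autoImplicit false
set_option linter.unusedSectionVars false

namespace Pool.Agent.Work.MP_d87e04_lc.CF

namespace Cal

variable {T S P : Type*} [DecidableEq P] (K : Cal T S P)

/-- Positive weights. -/
def Pos (t : T) (w : P → ℕ) : Prop := ∀ p ∈ K.lv t, 1 ≤ w p

/-- Comparison of weights. -/
def Le (t : T) (w w' : P → ℕ) : Prop := ∀ p ∈ K.lv t, w p ≤ w' p

variable {K}

theorem up_pos (A : S) (w : P → ℕ) (t : T) : K.Pos t (K.up A w) := fun _ _ => le_max_left _ _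

theorem dn_pos {A : S} (hA : K.Nice A) {w : P → ℕ} (h : K.Pos (K.src A) w) :
    K.Pos (K.tgt A) (K.dn A w) := fun e he => h _ (hA.anc_mem e he)

theorem up_mono {A : S} {w w' : P → ℕ} (h : K.Le (K.tgt A) w w') (p : P) :
    K.up A w p ≤ K.up A w' p := by
  refine max_le_max le_rfl (Finset.sum_le_sum fun e he => h e (Finset.mem_filter.1 he).1)

theorem dn_mono {A : S} (hA : K.Nice A) {w w' : P → ℕ} (h : K.Le (K.src A) w w') :
    K.Le (K.tgt A) (K.dn A w) (K.dn A w') := fun e he => h _ (hA.anc_mem e he)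

theorem cost_mono {A : S} (hA : K.Nice A) {l l' r r' : P → ℕ} (hl : K.Le (K.src A) l l')
    (hr : K.Le (K.src A) r r') : K.cost A l r ≤ K.cost A l' r' :=
  Finset.sum_le_sum fun p hp =>
    Nat.mul_le_mul (hl p (hA.sup_sub hp)) (hr p (hA.sup_sub hp))

theorem cost_comm (A : S) (l r : P → ℕ) : K.cost A l r = K.cost A r l :=
  Finset.sum_congr rfl fun _ _ => Nat.mul_comm _ _

/-- A descendant has at most the weight of its ancestor. -/
theorem le_up {A : S} {w : P → ℕ} {e : P} (he : e ∈ K.lv (K.tgt A)) :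
    w e ≤ K.up A w (K.anc A e) := by
  refine le_max_of_le_right ?_
  exact Finset.single_le_sum (f := w) (fun _ _ => Nat.zero_le _)
    (Finset.mem_filter.2 ⟨he, rfl⟩)

/-- The adjunction inequality. -/
theorem adj {A : S} {U V : Finset P} (hU : U ⊆ K.lv (K.tgt A))
    (hUV : ∀ p ∈ U, K.anc A p ∈ V) (l w : P → ℕ) :
    ∑ p ∈ U, l p * w (K.anc A p) ≤ ∑ g ∈ V, K.up A l g * w g := by
  rw [← Finset.sum_fiberwise_of_maps_to hUV]
  refine Finset.sum_le_sum fun g _ => ?_
  have : ∑ p ∈ U.filter (fun p => K.anc A p = g), l p * w (K.anc A p) =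
      (∑ p ∈ U.filter (fun p => K.anc A p = g), l p) * w g := by
    rw [Finset.sum_mul]
    exact Finset.sum_congr rfl fun p hp => by rw [(Finset.mem_filter.1 hp).2]
  rw [this]
  refine Nat.mul_le_mul_right _ (le_max_of_le_right ?_)
  exact Finset.sum_le_sum_of_subset (Finset.filter_subset_filter _ hU)

/-! ### Squares -/

theorem Sq.symm {A B C D : S} (h : K.Sq A B C D) : K.Sq B A D C where
  src_eq := h.src_eq.symm
  srcC := h.srcD
  srcD := h.srcC
  tgt_eq := h.tgt_eq.symm
  comm := fun e he => (h.comm e (by rw [h.tgt_eq]; exact he)).symm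
  inj := fun e he e' he' h1 h2 => h.inj e (by rw [h.tgt_eq]; exact he) e'
    (by rw [h.tgt_eq]; exact he') h2 h1
  supC := h.supD
  supD := h.supC

/-- The weights do not increase (first side). -/
theorem Sq.up_dn_le {A B C D : S} (h : K.Sq A B C D) (hD : K.Nice D) (r : P → ℕ) (p : P) :
    K.up C (K.dn D r) p ≤ K.up B r (K.anc A p) := by
  refine max_le_max le_rfl ?_
  set s := (K.lv (K.tgt C)).filter (fun e => K.anc C e = p) with hs
  have hinj : Set.InjOn (K.anc D) (s : Set P) := by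
    intro e he e' he' hee
    have h1 := Finset.mem_filter.1 (Finset.mem_coe.1 he)
    have h2 := Finset.mem_filter.1 (Finset.mem_coe.1 he')
    exact h.inj e h1.1 e' h2.1 (h1.2.trans h2.2.symm) hee
  have h1 : ∑ e ∈ s, K.dn D r e = ∑ e ∈ s.image (K.anc D), r e := by
    rw [Finset.sum_image hinj]
    rfl
  rw [h1]
  refine Finset.sum_le_sum_of_subset fun e he => ?_
  obtain ⟨e0, he0, rfl⟩ := Finset.mem_image.1 he
  have h2 := Finset.mem_filter.1 he0
  refine Finset.mem_filter.2 ⟨?_, ?_⟩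
  · rw [← h.srcD]
    refine hD.anc_mem e0 ?_
    rw [← h.tgt_eq]
    exact h2.1
  · rw [← h.comm e0 h2.1, h2.2]

theorem Sq.cost_le {A B C D : S} (h : K.Sq A B C D) (hC : K.Nice C) (hD : K.Nice D)
    (l r : P → ℕ) :
    K.cost C l (K.up C (K.dn D r)) ≤ K.cost B (K.up A l) (K.up B r) := by
  have h1 : K.cost C l (K.up C (K.dn D r)) ≤ ∑ p ∈ K.sup C, l p * K.up B r (K.anc A p) :=
    Finset.sum_le_sum fun p _ => Nat.mul_le_mul_left _ (h.up_dn_le hD r p)
  refine h1.trans (adj (A := A) ?_ h.supC l (K.up B r))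
  rw [← h.srcC]
  exact hC.sup_sub

/-! ### Triangles -/

theorem Tri.up_le {X Y Z : S} (h : K.Tri X Y Z) (r : P → ℕ) (p : P) :
    K.up Z r p ≤ K.up Y r (K.anc X p) := by
  refine max_le_max le_rfl (Finset.sum_le_sum_of_subset fun e he => ?_)
  have h1 := Finset.mem_filter.1 he
  refine Finset.mem_filter.2 ⟨by rw [← h.tgtZ]; exact h1.1, ?_⟩
  rw [← h.comm e (by rw [← h.tgtZ]; exact h1.1), h1.2]

theorem Tri.dn_le {X Y Z : S} (h : K.Tri X Y Z) (hZ : K.Nice Z) (l : P → ℕ) {e : P}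
    (he : e ∈ K.lv (K.tgt Y)) : K.dn Z l e ≤ K.up X l (K.anc Y e) := by
  rw [← h.comm e he]
  refine le_up (A := X) (w := l) ?_
  rw [← h.srcZ]
  exact hZ.anc_mem e (by rw [h.tgtZ]; exact he)

theorem Tri.cost_lt {X Y Z : S} (h : K.Tri X Y Z) (hZ : K.Nice Z) (l r : P → ℕ) :
    K.cost Z l (K.up Z r) < K.cost X (K.up X l) (K.up Y r) + K.cost Y (K.up X l) (K.up Y r) := by
  have h1 : K.cost Z l (K.up Z r) ≤ ∑ p ∈ K.sup Z, l p * K.up Y r (K.anc X p) :=
    Finset.sum_le_sum fun p _ => Nat.mul_le_mul_left _ (h.up_le r p)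
  have h2 := adj (A := X) (U := K.sup Z) (V := K.sup X ∪ K.sup Y)
    (by rw [← h.srcZ]; exact hZ.sup_sub) h.supZ l (K.up Y r)
  refine lt_of_le_of_lt (h1.trans h2) ?_
  have h3 := Finset.sum_union_inter (s₁ := K.sup X) (s₂ := K.sup Y)
    (f := fun g => K.up X l g * K.up Y r g)
  have h4 : 0 < ∑ g ∈ K.sup X ∩ K.sup Y, K.up X l g * K.up Y r g := by
    refine Finset.sum_pos (fun g _ => ?_) h.meet
    exact Nat.mul_pos (lt_of_lt_of_le Nat.zero_lt_one (le_max_left _ _))
      (lt_of_lt_of_le Nat.zero_lt_one (le_max_left _ _))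
  simp only [cost]
  omega

/-! ### Splittings -/

theorem Split.up_rest_le {A α A' : S} (h : K.Split A α A') (l : P → ℕ) (f : P) :
    K.up A' l f ≤ K.up A l (K.anc α f) := by
  refine max_le_max le_rfl (Finset.sum_le_sum_of_subset fun e he => ?_)
  have h1 := Finset.mem_filter.1 he
  have h2 : e ∈ K.lv (K.tgt A) := by rw [← h.tgtA']; exact h1.1
  exact Finset.mem_filter.2 ⟨h2, by rw [h.comm e h2, h1.2]⟩

theorem Split.up_le {A α A' : S} (h : K.Split A α A') (hA' : K.Nice A') {l : P → ℕ}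
    (hl : K.Pos (K.tgt A) l) (p : P) : K.up α (K.up A' l) p ≤ K.up A l p := by
  by_cases hc : ∃ f ∈ K.lv (K.tgt α), K.anc α f = p ∧ f ∈ K.sup A'
  · obtain ⟨f, hf, hfp, hfs⟩ := hc
    have h1 : (K.lv (K.tgt α)).filter (fun e => K.anc α e = p) = {f} := by
      ext f'
      simp only [Finset.mem_filter, Finset.mem_singleton]
      constructor
      · rintro ⟨h2, h3⟩
        exact (h.supA' f hfs).2.2 f' h2 (h3.trans hfp.symm)
      · rintro rfl
        exact ⟨hf, hfp⟩
    refine max_le (le_max_left _ _) ?_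
    rw [h1, Finset.sum_singleton, ← hfp]
    exact h.up_rest_le l f
  · push Not at hc
    refine max_le (le_max_left _ _) (le_max_of_le_right ?_)
    have h1 : ∀ f ∈ (K.lv (K.tgt α)).filter (fun e => K.anc α e = p),
        K.up A' l f = ∑ e ∈ (K.lv (K.tgt A')).filter (fun e => K.anc A' e = f), l e := by
      intro f hf
      have h2 := Finset.mem_filter.1 hf
      refine max_eq_right ?_
      obtain ⟨e, he, hef⟩ := hA'.desc f (by rw [h.mid]; exact h2.1) (hc f h2.1 h2.2)
      have h3 : l e ≤ ∑ e ∈ (K.lv (K.tgt A')).filter (fun e => K.anc A' e = f), l e :=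
        Finset.single_le_sum (f := l) (fun _ _ => Nat.zero_le _) (Finset.mem_filter.2 ⟨he, hef⟩)
      exact (hl e (by rw [← h.tgtA']; exact he)).trans h3
    rw [Finset.sum_congr rfl h1]
    rw [← Finset.sum_biUnion]
    · refine Finset.sum_le_sum_of_subset fun e he => ?_
      obtain ⟨f, hf, hef⟩ := Finset.mem_biUnion.1 he
      have h2 := Finset.mem_filter.1 hf
      have h3 := Finset.mem_filter.1 hef
      have h4 : e ∈ K.lv (K.tgt A) := by rw [← h.tgtA']; exact h3.1
      exact Finset.mem_filter.2 ⟨h4, by rw [h.comm e h4, h3.2, h2.2]⟩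
    · intro f _ f' _ hff
      refine Finset.disjoint_left.2 fun e he he' => hff ?_
      exact (Finset.mem_filter.1 he).2.symm.trans (Finset.mem_filter.1 he').2

theorem Split.dn_eq {A α A' : S} (h : K.Split A α A') (r : P → ℕ) {e : P}
    (he : e ∈ K.lv (K.tgt A)) : K.dn A' (K.dn α r) e = K.dn A r e := by
  simp only [dn]
  rw [h.comm e he]

theorem Split.cost_le {A α A' : S} (h : K.Split A α A') (hA' : K.Nice A') {l r : P → ℕ}
    (hl : K.Pos (K.tgt A) l) :
    K.cost A' (K.up A' l) (K.dn α r) + K.cost α (K.up α (K.up A' l)) r ≤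
      K.cost A (K.up A l) r := by
  have h1 : K.cost A' (K.up A' l) (K.dn α r) ≤
      ∑ g ∈ (K.sup A').image (K.anc α), K.up A l g * r g := by
    rw [Finset.sum_image]
    · exact Finset.sum_le_sum fun f _ => Nat.mul_le_mul_right _ (h.up_rest_le l f)
    · intro f hf f' hf' hff
      refine (h.supA' f' hf').2.2 f ?_ hff
      rw [← h.mid]
      exact hA'.sup_sub hf
  have h2 : K.cost α (K.up α (K.up A' l)) r ≤ ∑ g ∈ K.sup α, K.up A l g * r g :=
    Finset.sum_le_sum fun g _ => Nat.mul_le_mul_right _ (h.up_le hA' hl g)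
  refine (Nat.add_le_add h1 h2).trans ?_
  rw [← Finset.sum_union]
  · refine Finset.sum_le_sum_of_subset ?_
    refine Finset.union_subset (fun g hg => ?_) h.supα
    obtain ⟨f, hf, rfl⟩ := Finset.mem_image.1 hg
    exact (h.supA' f hf).1
  · refine Finset.disjoint_left.2 fun g hg hg' => ?_
    obtain ⟨f, hf, rfl⟩ := Finset.mem_image.1 hg
    exact (h.supA' f hf).2.1 hg'

end Cal

end Pool.Agent.Work.MP_d87e04_lc.CF
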